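import Pool.Agent.Work.MP_db9399_all.Interface

/-!
# MP_db9399, SPW: balls in a graph (helper68)
-/

set_option autoImplicit false

namespace Pool.Agent.Work.MP_db9399_cg.helper68

open Finset Classical
open Pool.Agent.Work.MP_db9399_all (nb)

universe u

section ballfacts

variable {V : Type u} [Fintype V]

/-- the ball of radius `k` -/
noncomputable def ball (G : SimpleGraph V) (v : V) : ℕ → Finset V
  | 0 => {v}
  | k + 1 => ball G v k ∪ (ball G v k).biUnion fun w => nb G w

theorem mem_nb {G : SimpleGraph V} {v w : V} : w ∈ nb G v ↔ G.Adj v w := by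
  simp [Pool.Agent.Work.MP_db9399_all.nb]

theorem ball_succ_sub (G : SimpleGraph V) (v : V) (k : ℕ) : ball G v k ⊆ ball G v (k + 1) :=
  subset_union_left

theorem ball_trans {G : SimpleGraph V} {v a : V} {k : ℕ} (h : a ∈ ball G v k) :
    ∀ (j : ℕ) (b : V), b ∈ ball G a j → b ∈ ball G v (k + j) := by
  intro j
  induction j with
  | zero =>
    intro b hb
    have : b = a := by simpa [ball] using hb
    rw [this]
    exact h
  | succ j ih =>
    intro b hb
    rw [ball, mem_union, mem_biUnion] at hb
    show b ∈ ball G v (k + j + 1)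
    rw [ball, mem_union, mem_biUnion]
    rcases hb with hb | ⟨w, hw, hb⟩
    · exact Or.inl (ih b hb)
    · exact Or.inr ⟨w, ih w hw, hb⟩

theorem ball_symm {G : SimpleGraph V} {v : V} :
    ∀ (k : ℕ) (a : V), a ∈ ball G v k → v ∈ ball G a k := by
  intro k
  induction k with
  | zero =>
    intro a ha
    have : a = v := by simpa [ball] using ha
    simp [ball, this]
  | succ k ih =>
    intro a ha
    rw [ball, mem_union, mem_biUnion] at ha
    rcases ha with ha | ⟨w, hw, ha⟩
    · exact ball_succ_sub G a k (ih a ha)
    · have h1 : w ∈ ball G a 1 := by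
        rw [ball, mem_union, mem_biUnion]
        exact Or.inr ⟨a, by simp [ball], mem_nb.2 (mem_nb.1 ha).symm⟩
      have := ball_trans h1 k v (ih w hw)
      rwa [add_comm] at this

theorem card_ball {G : SimpleGraph V} {d : ℕ} (hd : ∀ v, (nb G v).card ≤ d) (v : V) (k : ℕ) :
    (ball G v k).card ≤ (d + 1) ^ k := by
  induction k with
  | zero => simp [ball]
  | succ k ih =>
    rw [ball]
    have h1 : ((ball G v k).biUnion fun w => nb G w).card ≤ (ball G v k).card * d :=
      card_biUnion_le_card_mul _ _ _ fun w _ => hd w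
    have h2 := card_union_le (ball G v k) ((ball G v k).biUnion fun w => nb G w)
    calc _ ≤ (ball G v k).card + (ball G v k).card * d := h2.trans (by omega)
      _ = (ball G v k).card * (d + 1) := by ring
      _ ≤ (d + 1) ^ k * (d + 1) := Nat.mul_le_mul_right _ ih
      _ = _ := (pow_succ _ _).symm

/-- the balls that touch an edge -/
theorem card_touch {G : SimpleGraph V} {d : ℕ} (hd : ∀ v, (nb G v).card ≤ d) (e : Sym2 V)
    (k : ℕ) : (((univ.filter fun v => ∃ a ∈ e, a ∈ ball G v k).card : ℕ) : ℝ) ≤
      2 * ((d : ℝ) + 1) ^ k := by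
  induction e using Sym2.ind with
  | _ a b =>
    have h : (univ.filter fun v => ∃ x ∈ s(a, b), x ∈ ball G v k) ⊆ ball G a k ∪ ball G b k := by
      intro v hv
      simp only [mem_filter, mem_univ, true_and, Sym2.mem_iff] at hv
      obtain ⟨x, hx, hxv⟩ := hv
      rw [mem_union]
      rcases hx with rfl | rfl
      · exact Or.inl (ball_symm k x hxv)
      · exact Or.inr (ball_symm k x hxv)
    have h2 := (card_le_card h).trans (card_union_le _ _)
    have h3 := card_ball hd a k
    have h4 := card_ball hd b k
    have h5 : (univ.filter fun v => ∃ x ∈ s(a, b), x ∈ ball G v k).card ≤ 2 * (d + 1) ^ k := by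
      omega
    exact_mod_cast h5

end ballfacts

end Pool.Agent.Work.MP_db9399_cg.helper68
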