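import Pool.Agent.Work.MP_db9399_en.PROB

/-!
# MP_db9399, SPW: adaptive Hoeffding bound in a product space, union bounds, packages (helper68)
-/

set_option autoImplicit false

namespace Pool.Agent.Work.MP_db9399_cg.helper68

open Finset Classical
open Pool.Agent.Work.MP_db9399_all (pr DepOnI PackI)
open Pool.Agent.Work.MP_db9399_en

universe u v w

variable {J : Type u} [Fintype J] {M : ℕ}

/-! ## `pr` -/

theorem pr_nonneg {Ω : Type u} [Fintype Ω] (E : Ω → Prop) : 0 ≤ pr E :=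
  div_nonneg (Nat.cast_nonneg _) (Nat.cast_nonneg _)

theorem pr_zero {Ω : Type u} [Fintype Ω] {F : Ω → Prop} (h : ∀ ω, ¬ F ω) : pr F = 0 := by
  unfold pr
  rw [filter_false_of_mem fun ω _ => h ω]
  simp

theorem pr_mono {Ω : Type u} [Fintype Ω] {E F : Ω → Prop} (h : ∀ ω, E ω → F ω) : pr E ≤ pr F := by
  unfold pr
  refine div_le_div_of_nonneg_right ?_ (Nat.cast_nonneg _)
  exact_mod_cast card_le_card fun ω hω => by
    simp only [mem_filter, mem_univ, true_and] at hω ⊢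
    exact h ω hω

theorem pr_ex' {Ω : Type u} [Fintype Ω] {κ : Type v} (I : Finset κ) (E : κ → Ω → Prop)
    (F : Ω → Prop) (h : ∀ ω, F ω → ∃ i ∈ I, E i ω) : pr F ≤ ∑ i ∈ I, pr (E i) := by
  unfold pr
  rw [← sum_div]
  refine div_le_div_of_nonneg_right ?_ (Nat.cast_nonneg _)
  have h : (univ.filter F) ⊆ I.biUnion fun i => univ.filter (E i) := by
    intro ω hω
    simp only [mem_filter, mem_univ, true_and, mem_biUnion] at hω ⊢
    exact h ω hω
  have h2 := (card_le_card h).trans card_biUnion_le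
  have h3 : (((univ.filter F).card : ℕ) : ℝ) ≤ ((∑ i ∈ I, (univ.filter (E i)).card : ℕ) : ℝ) :=
    Nat.cast_le.2 h2
  rw [Nat.cast_sum] at h3
  exact h3

theorem pr_ex {Ω : Type u} [Fintype Ω] {κ : Type v} (I : Finset κ) (E : κ → Ω → Prop) :
    pr (fun ω => ∃ i ∈ I, E i ω) ≤ ∑ i ∈ I, pr (E i) := pr_ex' I E _ fun _ h => h

theorem pr_or {Ω : Type u} [Fintype Ω] (E F : Ω → Prop) :
    pr (fun ω => E ω ∨ F ω) ≤ pr E + pr F := by
  have := pr_ex' (univ : Finset Bool) (fun b => if b then E else F) (fun ω => E ω ∨ F ω)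
    (fun ω h => by
      rcases h with h | h
      · exact ⟨true, mem_univ _, by simpa using h⟩
      · exact ⟨false, mem_univ _, by simpa using h⟩)
  simpa [Fintype.sum_bool] using this

/-- a package with one event -/
theorem packI_one {T : ℝ} {Sc : Finset J} {W p s : ℝ} {P : (J → Fin M) → Prop} (hT : 0 ≤ T)
    (hd : DepOnI Sc P) (hne : Sc.Nonempty) (hs : (Sc.card : ℝ) ≤ s)
    (hp : pr (fun f => ¬ P f) ≤ p) (hW : p * Real.exp (2 * T * s) ≤ W) : PackI T Sc W P := by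
  refine ⟨PUnit, inferInstance, fun _ => Sc, fun _ f => ¬ P f, fun _ f g h => ?_, fun _ => hne,
    fun _ => Subset.rfl, ?_, fun f h => not_not.1 (h PUnit.unit)⟩
  · have := hd f g h
    simp only [this]
  · simp only [univ_unique, sum_singleton]
    refine le_trans ?_ hW
    have h1 : Real.exp (2 * T * (Sc.card : ℝ)) ≤ Real.exp (2 * T * s) :=
      Real.exp_le_exp.2 (mul_le_mul_of_nonneg_left hs (by positivity))
    exact mul_le_mul hp h1 (Real.exp_pos _).le ((pr_nonneg _).trans hp)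

/-! ## dependence -/

omit [Fintype J] in
theorem dep_comp {β : Type v} {γ : Type w} {Q : Finset J} {f : (J → Fin M) → β}
    (hf : DepOnI Q f) (g : β → γ) : DepOnI Q (fun ω => g (f ω)) := fun a b h => by
  show g (f a) = g (f b)
  rw [hf a b h]

omit [Fintype J] in
theorem dep_comp2 {β β' : Type v} {γ : Type w} {Q : Finset J} {f : (J → Fin M) → β}
    {f' : (J → Fin M) → β'} (hf : DepOnI Q f) (hf' : DepOnI Q f') (g : β → β' → γ) :
    DepOnI Q (fun ω => g (f ω) (f' ω)) := fun a b h => by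
  show g (f a) (f' a) = g (f b) (f' b)
  rw [hf a b h, hf' a b h]

omit [Fintype J] in
theorem dep_sum {κ : Type v} (I : Finset κ) {Q : Finset J} {g : κ → (J → Fin M) → ℝ}
    (hg : ∀ i ∈ I, DepOnI Q (g i)) : DepOnI Q (fun ω => ∑ i ∈ I, g i ω) := fun a b h => by
  show ∑ i ∈ I, g i a = ∑ i ∈ I, g i b
  exact sum_congr rfl fun i hi => hg i hi a b h

/-- expectation of a function of one coordinate -/
theorem ex_coord (x : J) (h : Fin M → ℝ) :
    ex (fun ω : J → Fin M => h (ω x)) = (∑ i, h i) / M := by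
  rcases Nat.eq_zero_or_pos M with rfl | hM
  · have : IsEmpty (J → Fin 0) := ⟨fun f => (f x).elim0⟩
    simp [ex]
  have h1 : ∑ ω : J → Fin M, h (ω x) = (∑ i, h i) * (M : ℝ) ^ (Fintype.card J - 1) := by
    have e : ∀ ω : J → Fin M, h (ω x) = ∏ j, (if j = x then h (ω j) else 1) := by
      intro ω
      rw [prod_ite_eq' univ x (fun j => h (ω j))]
      simp
    rw [sum_congr rfl fun ω _ => e ω]
    have := (Finset.prod_univ_sum (fun _ : J => (univ : Finset (Fin M)))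
      (fun j i => if j = x then h i else (1 : ℝ)))
    rw [Fintype.piFinset_univ] at this
    rw [← this, ← mul_prod_erase univ _ (mem_univ x)]
    congr 1
    · simp
    · rw [prod_congr rfl (g := fun _ => (M : ℝ))]
      · rw [prod_const, card_erase_of_mem (mem_univ x), card_univ]
      · intro j hj
        simp [(mem_erase.1 hj).1]
  unfold ex
  rw [h1, Fintype.card_fun, Fintype.card_fin]
  have hc : 0 < Fintype.card J := Fintype.card_pos_iff.2 ⟨x⟩
  obtain ⟨k, hk⟩ : ∃ k, Fintype.card J = k + 1 := ⟨_, (Nat.succ_pred_eq_of_pos hc).symm⟩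
  rw [hk, Nat.add_sub_cancel]
  have hM' : (M : ℝ) ≠ 0 := by exact_mod_cast hM.ne'
  push_cast
  rw [pow_succ, mul_comm ((M : ℝ) ^ k) M]
  exact mul_div_mul_right _ _ (pow_ne_zero _ hM')

/-! ## the adaptive Hoeffding bound -/

theorem exp_conv {u g : ℝ} (hu : |u| ≤ 1) :
    Real.exp (u * g) ≤ Real.cosh g + u * Real.sinh g := by
  have h := abs_le.1 hu
  have h1 := convexOn_exp.2 (Set.mem_univ g) (Set.mem_univ (-g))
    (show (0 : ℝ) ≤ (1 + u) / 2 by linarith) (show (0 : ℝ) ≤ (1 - u) / 2 by linarith) (by ring)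
  simp only [smul_eq_mul] at h1
  have h2 : (1 + u) / 2 * g + (1 - u) / 2 * -g = u * g := by ring
  rw [h2] at h1
  rw [Real.cosh_eq, Real.sinh_eq]
  linarith

/-- `ξ x` is centred, bounded by `1`, a function of the coordinates in `P x`; its factor `g x` is
predictable. -/
theorem adapt (hM : 0 < M) {κ : Type v} (r : κ → ℝ) (I : Finset κ) (P Q : κ → Finset J)
    (ξ g : κ → (J → Fin M) → ℝ) (c : κ → ℝ)
    (hP : ∀ x ∈ I, DepOnI (P x) (ξ x)) (hQ : ∀ x ∈ I, DepOnI (Q x) (g x))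
    (hPP : ∀ x ∈ I, ∀ y ∈ I, x ≠ y → Disjoint (P x) (P y))
    (hPQ : ∀ x ∈ I, ∀ y ∈ I, r y ≤ r x → Disjoint (P x) (Q y))
    (h0 : ∀ x ∈ I, ex (ξ x) = 0) (h1 : ∀ x ∈ I, ∀ ω, |ξ x ω| ≤ 1)
    (hc : ∀ x ∈ I, ∀ ω, |g x ω| ≤ c x) :
    ex (fun ω => Real.exp (∑ x ∈ I, ξ x ω * g x ω)) ≤ Real.exp ((∑ x ∈ I, c x ^ 2) / 2) := by
  induction I using Finset.induction_on_max_value r with
  | empty => simp [ex_one hM]
  | insert a s ha hmax ih =>
    have hs : ∀ x ∈ s, x ∈ insert a s := fun x hx => mem_insert_of_mem hx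
    have haa : a ∈ insert a s := mem_insert_self a s
    have ih' := ih (fun x hx => hP x (hs x hx)) (fun x hx => hQ x (hs x hx))
      (fun x hx y hy => hPP x (hs x hx) y (hs y hy))
      (fun x hx y hy => hPQ x (hs x hx) y (hs y hy))
      (fun x hx => h0 x (hs x hx)) (fun x hx => h1 x (hs x hx)) (fun x hx => hc x (hs x hx))
    set F : (J → Fin M) → ℝ := fun ω => Real.exp (∑ x ∈ s, ξ x ω * g x ω) with hF
    have hF0 : ∀ ω, 0 ≤ F ω := fun ω => (Real.exp_pos _).le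
    have hFd : DepOnI (P a)ᶜ F := by
      refine dep_comp (dep_sum s fun x hx => ?_) Real.exp
      refine dep_comp2 (depI_mono ?_ (hP x (hs x hx))) (depI_mono ?_ (hQ x (hs x hx)))
        (fun a b => a * b)
      · intro j hj
        rw [mem_compl]
        intro hj'
        exact Finset.disjoint_left.1 (hPP a haa x (hs x hx) fun h => ha (h ▸ hx)) hj' hj
      · intro j hj
        rw [mem_compl]
        intro hj'
        exact Finset.disjoint_left.1 (hPQ a haa x (hs x hx) (hmax x hx)) hj' hj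
    have hgd : DepOnI (P a)ᶜ (g a) := by
      refine depI_mono ?_ (hQ a haa)
      intro j hj
      rw [mem_compl]
      intro hj'
      exact Finset.disjoint_left.1 (hPQ a haa a haa le_rfl) hj' hj
    have e1 : ∀ ω, Real.exp (∑ x ∈ insert a s, ξ x ω * g x ω) ≤
        Real.exp (c a ^ 2 / 2) * F ω + ξ a ω * (Real.sinh (g a ω) * F ω) := by
      intro ω
      rw [sum_insert ha, Real.exp_add]
      have h3 := exp_conv (g := g a ω) (h1 a haa ω)
      have h4 : Real.cosh (g a ω) ≤ Real.exp (c a ^ 2 / 2) := by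
        refine (Real.cosh_le_exp_half_sq _).trans (Real.exp_le_exp.2 ?_)
        have := hc a haa ω
        have h5 : g a ω ^ 2 ≤ c a ^ 2 := by
          rw [← sq_abs (g a ω)]
          exact pow_le_pow_left₀ (abs_nonneg _) this 2
        linarith
      have h6 : Real.exp (ξ a ω * g a ω) ≤ Real.exp (c a ^ 2 / 2) + ξ a ω * Real.sinh (g a ω) := by
        linarith
      have := mul_le_mul_of_nonneg_right h6 (hF0 ω)
      calc Real.exp (ξ a ω * g a ω) * Real.exp (∑ x ∈ s, ξ x ω * g x ω)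
          ≤ (Real.exp (c a ^ 2 / 2) + ξ a ω * Real.sinh (g a ω)) * F ω := this
        _ = _ := by ring
    refine (ex_mono hM e1).trans ?_
    rw [ex_add, ex_const_mul, ex_mul hM (P a) (ξ a) (fun ω => Real.sinh (g a ω) * F ω)
      (hP a haa) (dep_comp2 hgd hFd fun x y => Real.sinh x * y), h0 a haa, zero_mul, add_zero,
      sum_insert ha, add_div, Real.exp_add]
    exact mul_le_mul_of_nonneg_left ih' (Real.exp_pos _).le

/-- one-sided tail -/
theorem tail1 (hM : 0 < M) {κ : Type v} (r : κ → ℝ) (I : Finset κ) (P Q : κ → Finset J)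
    (ξ g : κ → (J → Fin M) → ℝ) (c : κ → ℝ)
    (hP : ∀ x ∈ I, DepOnI (P x) (ξ x)) (hQ : ∀ x ∈ I, DepOnI (Q x) (g x))
    (hPP : ∀ x ∈ I, ∀ y ∈ I, x ≠ y → Disjoint (P x) (P y))
    (hPQ : ∀ x ∈ I, ∀ y ∈ I, r y ≤ r x → Disjoint (P x) (Q y))
    (h0 : ∀ x ∈ I, ex (ξ x) = 0) (h1 : ∀ x ∈ I, ∀ ω, |ξ x ω| ≤ 1)
    (hc : ∀ x ∈ I, ∀ ω, |g x ω| ≤ c x) {S t : ℝ} (hS : 0 < S) (hcS : ∑ x ∈ I, c x ^ 2 ≤ S)
    (ht : 0 ≤ t) :
    pr (fun ω => t ≤ ∑ x ∈ I, ξ x ω * g x ω) ≤ Real.exp (-(t ^ 2 / (2 * S))) := by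
  rcases ht.eq_or_lt with ht0 | ht0
  · rw [← ht0]
    simp only [ne_eq, OfNat.ofNat_ne_zero, not_false_eq_true, zero_pow, zero_div, neg_zero,
      Real.exp_zero]
    unfold pr
    exact div_le_one_of_le₀ (by
      have := card_le_univ (univ.filter fun ω : J → Fin M => 0 ≤ ∑ x ∈ I, ξ x ω * g x ω)
      exact_mod_cast this) (Nat.cast_nonneg _)
  set l := t / S with hl
  have hlp : 0 < l := div_pos ht0 hS
  have h2 := adapt hM r I P Q ξ (fun x ω => l * g x ω) (fun x => l * c x) hP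
    (fun x hx => dep_comp (hQ x hx) fun y => l * y) hPP hPQ h0 h1 (fun x hx ω => by
      rw [abs_mul, abs_of_pos hlp]
      exact mul_le_mul_of_nonneg_left (hc x hx ω) hlp.le)
  have h3 := markov hM (f := fun ω : J → Fin M => Real.exp (∑ x ∈ I, ξ x ω * (l * g x ω)))
    (fun ω => (Real.exp_pos _).le) (Real.exp_pos (l * t))
  have h4 : (fun ω : J → Fin M => Real.exp (l * t) ≤ Real.exp (∑ x ∈ I, ξ x ω * (l * g x ω))) =
      fun ω => t ≤ ∑ x ∈ I, ξ x ω * g x ω := by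
    funext ω
    have : ∑ x ∈ I, ξ x ω * (l * g x ω) = l * ∑ x ∈ I, ξ x ω * g x ω := by
      rw [mul_sum]
      exact sum_congr rfl fun x _ => by ring
    rw [this, Real.exp_le_exp, mul_le_mul_iff_right₀ hlp]
  rw [h4] at h3
  refine h3.trans ?_
  rw [div_eq_mul_inv, ← Real.exp_neg]
  refine (mul_le_mul_of_nonneg_right h2 (Real.exp_pos _).le).trans ?_
  rw [← Real.exp_add]
  refine Real.exp_le_exp.2 ?_
  have h5 : ∑ x ∈ I, (l * c x) ^ 2 = l ^ 2 * ∑ x ∈ I, c x ^ 2 := by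
    rw [mul_sum]
    exact sum_congr rfl fun x _ => by ring
  rw [h5]
  have h6 : l ^ 2 * ∑ x ∈ I, c x ^ 2 ≤ l ^ 2 * S := mul_le_mul_of_nonneg_left hcS (sq_nonneg l)
  have h7 : l ^ 2 * S / 2 - l * t = -(t ^ 2 / (2 * S)) := by
    rw [hl]
    field_simp
    ring
  linarith

/-- **Adaptive Hoeffding, two-sided.** -/
theorem tail2 (hM : 0 < M) {κ : Type v} (r : κ → ℝ) (I : Finset κ) (P Q : κ → Finset J)
    (ξ g : κ → (J → Fin M) → ℝ) (c : κ → ℝ)
    (hP : ∀ x ∈ I, DepOnI (P x) (ξ x)) (hQ : ∀ x ∈ I, DepOnI (Q x) (g x))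
    (hPP : ∀ x ∈ I, ∀ y ∈ I, x ≠ y → Disjoint (P x) (P y))
    (hPQ : ∀ x ∈ I, ∀ y ∈ I, r y ≤ r x → Disjoint (P x) (Q y))
    (h0 : ∀ x ∈ I, ex (ξ x) = 0) (h1 : ∀ x ∈ I, ∀ ω, |ξ x ω| ≤ 1)
    (hc : ∀ x ∈ I, ∀ ω, |g x ω| ≤ c x) {S t : ℝ} (hS : 0 < S) (hcS : ∑ x ∈ I, c x ^ 2 ≤ S)
    (ht : 0 ≤ t) :
    pr (fun ω => t < |∑ x ∈ I, ξ x ω * g x ω|) ≤ 2 * Real.exp (-(t ^ 2 / (2 * S))) := by
  have h2 := tail1 hM r I P Q ξ g c hP hQ hPP hPQ h0 h1 hc hS hcS ht
  have h3 := tail1 hM r I P Q ξ (fun x ω => -g x ω) c hP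
    (fun x hx => dep_comp (hQ x hx) fun y => -y) hPP hPQ h0 h1 (fun x hx ω => by
      rw [abs_neg]
      exact hc x hx ω) hS hcS ht
  have h4 : pr (fun ω : J → Fin M => t < |∑ x ∈ I, ξ x ω * g x ω|) ≤
      pr (fun ω => t ≤ ∑ x ∈ I, ξ x ω * g x ω ∨ t ≤ ∑ x ∈ I, ξ x ω * -g x ω) := by
    refine pr_mono fun ω hω => ?_
    rcases lt_abs.1 hω with h | h
    · exact Or.inl h.le
    · refine Or.inr ?_
      have : ∑ x ∈ I, ξ x ω * -g x ω = -∑ x ∈ I, ξ x ω * g x ω := by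
        rw [← sum_neg_distrib]
        exact sum_congr rfl fun x _ => by ring
      rw [this]
      exact h.le
  have h5 := pr_or (fun ω : J → Fin M => t ≤ ∑ x ∈ I, ξ x ω * g x ω)
    (fun ω => t ≤ ∑ x ∈ I, ξ x ω * -g x ω)
  linarith

end Pool.Agent.Work.MP_db9399_cg.helper68
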