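import Pool.Agent.Work.MP_db9399_cg.Interface2
import Pool.Agent.Work.MP_db9399_all_helper6.LLLI
import Pool.Agent.Work.MP_db9399_cg_helper68.TOOL
import Pool.Agent.Work.MP_db9399_cg_helper68.BALL

/-!
# MP_db9399, SPW, block A1: the labels (helper68)
-/

set_option autoImplicit false

namespace Pool.Agent.Work.MP_db9399_cg.helper68

open Finset Classical
open Pool.Agent.Work.MP_db9399_all (nb pr DepOnI PackI Stmt_LLLI)
open Pool.Agent.Work.MP_db9399_cg
open Pool.Agent.Work.MP_db9399_en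

universe u

section A1

variable {V : Type u} [Fintype V]

/-! ## the coins -/

theorem sum_coin (n1 n2 : ℕ) (h1 : 0 < n1) (H : ℕ → ℕ → ℝ) :
    ∑ i : Fin (n2 * n1), H ((i : ℕ) % n1) ((i : ℕ) / n1) = ∑ x : Fin n2, ∑ y : Fin n1, H y x := by
  rw [← Fintype.sum_prod_type', ← Equiv.sum_comp (finProdFinEquiv (m := n2) (n := n1))]
  refine sum_congr rfl fun p _ => ?_
  have e : ((finProdFinEquiv p : Fin (n2 * n1)) : ℕ) = (p.2 : ℕ) + n1 * (p.1 : ℕ) := rfl
  rw [e, Nat.add_mul_mod_self_left, Nat.mod_eq_of_lt p.2.2, Nat.add_mul_div_left _ _ h1,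
    Nat.div_eq_of_lt p.2.2, zero_add]

/-- Hoeffding for the number of coins in a set -/
theorem hoeff {M : ℕ} (hM : 0 < M) (C : Fin M → Prop) [DecidablePred C] (p : ℝ) (hp0 : 0 ≤ p) (hp1 : p ≤ 1)
    (hp : (∑ i : Fin M, if C i then (1 : ℝ) else 0) = p * M) (A : Finset V) (hA : 0 < A.card)
    {t : ℝ} (ht : 0 ≤ t) :
    pr (fun ω : V → Fin M => t < |((A.filter fun y => C (ω y)).card : ℝ) - p * A.card|) ≤
      2 * Real.exp (-(t ^ 2 / (2 * A.card))) := by
  have hM' : (M : ℝ) ≠ 0 := by exact_mod_cast hM.ne'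
  have h := tail2 (J := V) hM (fun x : V => (0 : ℝ)) A (fun x => {x}) (fun _ => ∅)
    (fun x ω => (if C (ω x) then (1 : ℝ) else 0) - p) (fun _ _ => 1) (fun _ => 1)
    (fun x _ a b hab => by simp only [hab x (mem_singleton_self x)]) (fun _ _ _ _ _ => rfl)
    (fun x _ y _ hxy => by simpa using hxy)
    (fun x _ y _ _ => by simp) (fun x _ => by
      rw [ex_coord x (fun i => (if C i then (1 : ℝ) else 0) - p), sum_sub_distrib, hp]
      simp [mul_comm])
    (fun x _ ω => by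
      split_ifs
      · rw [abs_le]; constructor <;> linarith
      · rw [abs_le]; constructor <;> linarith) (fun _ _ _ => by simp)
    (S := A.card) (by exact_mod_cast hA) (by simp) ht
  have e : (fun ω : V → Fin M => t < |((A.filter fun y => C (ω y)).card : ℝ) - p * A.card|) =
      fun ω => t < |∑ x ∈ A, ((if C (ω x) then (1 : ℝ) else 0) - p) * 1| := by
    funext ω
    congr 2
    simp only [mul_one, sum_sub_distrib, sum_const, nsmul_eq_mul]
    rw [← sum_filter, sum_const, nsmul_eq_mul]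
    ring
  rw [e]
  exact h

/-! ## the quadratic form -/

theorem quad (G : SimpleGraph V) (v : V) (r : V → ℕ) (hr : Function.Injective r) (ξ : V → ℝ) :
    ∑ x ∈ nb G v, ξ x * ∑ y ∈ nb G x, ξ y = ∑ x, ξ x * ∑ y ∈ (nb G x).filter (fun y => r y < r x),
      ((if x ∈ nb G v then (1 : ℝ) else 0) + (if y ∈ nb G v then 1 else 0)) * ξ y := by
  have L : ∑ x ∈ nb G v, ξ x * ∑ y ∈ nb G x, ξ y = ∑ x, ∑ y,
      (if x ∈ nb G v then (1 : ℝ) else 0) * (if G.Adj x y then 1 else 0) * (ξ x * ξ y) := by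
    rw [← sum_filter_add_sum_filter_not univ (fun x => x ∈ nb G v)]
    have h0 : ∑ x ∈ univ.filter (fun x => ¬ x ∈ nb G v), ∑ y,
        (if x ∈ nb G v then (1 : ℝ) else 0) * (if G.Adj x y then 1 else 0) * (ξ x * ξ y) = 0 := by
      refine sum_eq_zero fun x hx => ?_
      rw [if_neg (mem_filter.1 hx).2]
      simp
    rw [h0, add_zero, filter_mem_eq_inter, univ_inter]
    refine sum_congr rfl fun x hx => ?_
    rw [if_pos hx, mul_sum, Pool.Agent.Work.MP_db9399_all.nb, sum_filter]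
    refine sum_congr rfl fun y _ => ?_
    split_ifs <;> ring
  have R : ∑ x, ξ x * ∑ y ∈ (nb G x).filter (fun y => r y < r x),
      ((if x ∈ nb G v then (1 : ℝ) else 0) + (if y ∈ nb G v then 1 else 0)) * ξ y =
      ∑ x, ∑ y, (if x ∈ nb G v then (1 : ℝ) else 0) * (if G.Adj x y ∧ r y < r x then 1 else 0) *
        (ξ x * ξ y) +
      ∑ x, ∑ y, (if y ∈ nb G v then (1 : ℝ) else 0) * (if G.Adj x y ∧ r y < r x then 1 else 0) *
        (ξ x * ξ y) := by
    rw [← sum_add_distrib]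
    refine sum_congr rfl fun x _ => ?_
    rw [← sum_add_distrib, mul_sum, Pool.Agent.Work.MP_db9399_all.nb, filter_filter, sum_filter]
    refine sum_congr rfl fun y _ => ?_
    by_cases h : G.Adj x y ∧ r y < r x
    · rw [if_pos h, if_pos h]; ring
    · rw [if_neg h, if_neg h]; ring
  rw [L, R, sum_comm (f := fun x y => (if y ∈ nb G v then (1 : ℝ) else 0) *
    (if G.Adj x y ∧ r y < r x then 1 else 0) * (ξ x * ξ y)), ← sum_add_distrib]
  refine sum_congr rfl fun x _ => ?_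
  rw [← sum_add_distrib]
  refine sum_congr rfl fun y _ => ?_
  by_cases h : G.Adj x y
  · have h1 : r x ≠ r y := fun e => h.ne (hr e)
    have e1 : (if G.Adj x y then (1 : ℝ) else 0) = 1 := if_pos h
    rcases lt_or_gt_of_ne h1 with h2 | h2
    · have e2 : (if G.Adj x y ∧ r y < r x then (1 : ℝ) else 0) = 0 :=
        if_neg fun h3 => absurd h3.2 (not_lt.2 h2.le)
      have e3 : (if G.Adj y x ∧ r x < r y then (1 : ℝ) else 0) = 1 := if_pos ⟨h.symm, h2⟩
      rw [e1, e2, e3]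
      ring
    · have e2 : (if G.Adj x y ∧ r y < r x then (1 : ℝ) else 0) = 1 := if_pos ⟨h, h2⟩
      have e3 : (if G.Adj y x ∧ r x < r y then (1 : ℝ) else 0) = 0 :=
        if_neg fun h3 => absurd h3.2 (not_lt.2 h2.le)
      rw [e1, e2, e3]
      ring
  · have e1 : (if G.Adj x y then (1 : ℝ) else 0) = 0 := if_neg h
    have e2 : (if G.Adj x y ∧ r y < r x then (1 : ℝ) else 0) = 0 := if_neg fun h3 => h h3.1
    have e3 : (if G.Adj y x ∧ r x < r y then (1 : ℝ) else 0) = 0 :=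
      if_neg fun h3 => h h3.1.symm
    rw [e1, e2, e3]
    ring

/-- the codegree -/
noncomputable def cdv (G : SimpleGraph V) (v x : V) : ℝ := ((nb G x ∩ nb G v).card : ℝ)

theorem sum_cdv {G : SimpleGraph V} {d : ℕ} (hG : Reg G d) (v : V) :
    ∑ x, cdv G v x = (d : ℝ) * d := by
  have h1 : ∀ x, cdv G v x = ∑ y ∈ nb G v, if G.Adj y x then (1 : ℝ) else 0 := by
    intro x
    unfold cdv
    have : nb G x ∩ nb G v = (nb G v).filter fun y => G.Adj y x := by
      ext y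
      simp only [mem_inter, mem_filter, mem_nb]
      exact ⟨fun h => ⟨h.2, h.1.symm⟩, fun h => ⟨h.2.symm, h.1⟩⟩
    rw [this, ← sum_filter, sum_const, nsmul_eq_mul, mul_one]
  rw [sum_congr rfl fun x _ => h1 x, sum_comm]
  have h2 : ∀ y ∈ nb G v, ∑ x, (if G.Adj y x then (1 : ℝ) else 0) = d := by
    intro y _
    rw [← sum_filter, sum_const, nsmul_eq_mul, mul_one, ← hG y]
    rfl
  rw [sum_congr rfl h2, sum_const, nsmul_eq_mul, hG v]

/-- the clamp of the factor of `x` -/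
noncomputable def clp (G : SimpleGraph V) (d : ℕ) (v x : V) : ℝ :=
  (√d * (if x ∈ nb G v then 1 else 0) + √(cdv G v x)) * Real.log d

theorem clp_nonneg (G : SimpleGraph V) {d : ℕ} (v x : V) (_hd : 0 ≤ Real.log d) :
    0 ≤ clp G d v x := by
  unfold clp
  have : (0 : ℝ) ≤ if x ∈ nb G v then 1 else 0 := by split_ifs <;> norm_num
  positivity

/-- the weight of `x`: `d` if `x ∈ N(v)`, plus the codegree -/
noncomputable def wgt (G : SimpleGraph V) (d : ℕ) (v x : V) : ℝ :=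
  d * (if x ∈ nb G v then 1 else 0) + cdv G v x

theorem cdv_nonneg (G : SimpleGraph V) (v x : V) : 0 ≤ cdv G v x := Nat.cast_nonneg _

theorem clp_low (G : SimpleGraph V) (d : ℕ) (v x : V) :
    wgt G d v x * Real.log d ^ 2 ≤ clp G d v x ^ 2 := by
  unfold clp wgt
  rw [mul_pow]
  refine mul_le_mul_of_nonneg_right ?_ (sq_nonneg _)
  have h1 := Real.sq_sqrt (Nat.cast_nonneg d : (0 : ℝ) ≤ d)
  have h2 := Real.sq_sqrt (cdv_nonneg G v x)
  have h3 := Real.sqrt_nonneg (d : ℝ)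
  have h4 := Real.sqrt_nonneg (cdv G v x)
  split_ifs
  · nlinarith [mul_nonneg h3 h4]
  · nlinarith

theorem clp_up (G : SimpleGraph V) (d : ℕ) (v x : V) :
    clp G d v x ^ 2 ≤ 2 * wgt G d v x * Real.log d ^ 2 := by
  unfold clp wgt
  rw [mul_pow]
  refine mul_le_mul_of_nonneg_right ?_ (sq_nonneg _)
  have h1 := Real.sq_sqrt (Nat.cast_nonneg d : (0 : ℝ) ≤ d)
  have h2 := Real.sq_sqrt (cdv_nonneg G v x)
  split_ifs
  · nlinarith [sq_nonneg (√(d : ℝ) - √(cdv G v x))]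
  · nlinarith [sq_nonneg (√(cdv G v x))]

theorem sum_wgt {G : SimpleGraph V} {d : ℕ} (hG : Reg G d) (v : V) :
    ∑ x, wgt G d v x = 2 * ((d : ℝ) * d) := by
  unfold wgt
  rw [sum_add_distrib, sum_cdv hG, ← mul_sum]
  have : (∑ x, if x ∈ nb G v then (1 : ℝ) else 0) = d := by
    rw [← sum_filter, sum_const, nsmul_eq_mul, mul_one, filter_mem_eq_inter, univ_inter, hG v]
  rw [this]
  ring

/-- the factor of `x` -/
noncomputable def Lam (G : SimpleGraph V) (v x : V) (ξ : V → ℝ) : ℝ :=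
  ∑ y ∈ (nb G x).filter (fun y => ix y < ix x),
    ((if x ∈ nb G v then (1 : ℝ) else 0) + (if y ∈ nb G v then 1 else 0)) * ξ y

/-- the clamped factor -/
noncomputable def gcl (G : SimpleGraph V) (d : ℕ) (v x : V) (ξ : V → ℝ) : ℝ :=
  max (-clp G d v x) (min (clp G d v x) (Lam G v x ξ))

theorem gcl_abs (G : SimpleGraph V) {d : ℕ} (v x : V) (hd : 0 ≤ Real.log d) (ξ : V → ℝ) :
    |gcl G d v x ξ| ≤ clp G d v x := by
  have := clp_nonneg G v x hd
  unfold gcl
  rw [abs_le]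
  exact ⟨le_max_left _ _, max_le (by linarith) (min_le_left _ _)⟩

theorem gcl_eq (G : SimpleGraph V) {d : ℕ} (v x : V) (ξ : V → ℝ)
    (h : |Lam G v x ξ| ≤ clp G d v x) : gcl G d v x ξ = Lam G v x ξ := by
  unfold gcl
  rw [min_eq_right (abs_le.1 h).2, max_eq_right (abs_le.1 h).1]

theorem ix_inj : Function.Injective (ix : V → ℕ) := fun _ _ h =>
  (Fintype.equivFin V).injective (Fin.ext h)

/-- the factor is small -/
theorem lam_tail {M : ℕ} (hM : 0 < M) {G : SimpleGraph V} {d : ℕ} (hG : Reg G d) (v x : V)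
    (hd : 0 ≤ Real.log d) (ξ : Fin M → ℝ) (h1 : ∀ i, |ξ i| ≤ 1) (h0 : ∑ i, ξ i = 0) :
    pr (fun ω : V → Fin M => clp G d v x < |Lam G v x fun y => ξ (ω y)|) ≤
      2 * Real.exp (-(Real.log d ^ 2 / 8)) := by
  have hw0 : 0 ≤ wgt G d v x := by
    unfold wgt
    have h1 : (0 : ℝ) ≤ if x ∈ nb G v then 1 else 0 := by split_ifs <;> norm_num
    have := cdv_nonneg G v x
    positivity
  -- the sum of squares of the weights
  have hS : ∑ y ∈ (nb G x).filter (fun y => ix y < ix x),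
      ((if x ∈ nb G v then (1 : ℝ) else 0) + (if y ∈ nb G v then 1 else 0)) ^ 2 ≤
      2 * wgt G d v x := by
    have e1 : ∀ y ∈ nb G x,
        ((if x ∈ nb G v then (1 : ℝ) else 0) + (if y ∈ nb G v then 1 else 0)) ^ 2 ≤
        2 * (if x ∈ nb G v then (1 : ℝ) else 0) + 2 * (if y ∈ nb G v then 1 else 0) := by
      intro y _
      split_ifs <;> norm_num
    calc _ ≤ ∑ y ∈ nb G x,
        ((if x ∈ nb G v then (1 : ℝ) else 0) + (if y ∈ nb G v then 1 else 0)) ^ 2 :=
          sum_le_sum_of_subset_of_nonneg (filter_subset _ _) fun _ _ _ => sq_nonneg _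
      _ ≤ ∑ y ∈ nb G x, (2 * (if x ∈ nb G v then (1 : ℝ) else 0) +
          2 * (if y ∈ nb G v then 1 else 0)) := sum_le_sum e1
      _ = 2 * wgt G d v x := by
          rw [sum_add_distrib, sum_const, nsmul_eq_mul, hG x, ← mul_sum, ← sum_filter, sum_const,
            nsmul_eq_mul, mul_one, filter_mem_eq_inter]
          unfold wgt cdv
          ring
  rcases hw0.eq_or_lt with hw | hw
  · -- nothing to do
    have hz : ∀ y ∈ (nb G x).filter (fun y => ix y < ix x),
        ((if x ∈ nb G v then (1 : ℝ) else 0) + (if y ∈ nb G v then 1 else 0)) = 0 := by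
      intro y hy
      have h2 : ∑ y ∈ (nb G x).filter (fun y => ix y < ix x),
          ((if x ∈ nb G v then (1 : ℝ) else 0) + (if y ∈ nb G v then 1 else 0)) ^ 2 = 0 :=
        le_antisymm (by rw [← hw, mul_zero] at hS; exact hS) (sum_nonneg fun _ _ => sq_nonneg _)
      have h3 := (sum_eq_zero_iff_of_nonneg fun _ _ => sq_nonneg _).1 h2 y hy
      exact pow_eq_zero_iff (two_ne_zero) |>.1 h3
    have hL : ∀ ω : V → Fin M, Lam G v x (fun y => ξ (ω y)) = 0 := by
      intro ω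
      unfold Lam
      exact sum_eq_zero fun y hy => by rw [hz y hy, zero_mul]
    have hf : ∀ ω : V → Fin M, ¬ (clp G d v x < |Lam G v x fun y => ξ (ω y)|) := by
      intro ω
      rw [hL ω, abs_zero, not_lt]
      exact clp_nonneg G v x hd
    have : pr (fun ω : V → Fin M => clp G d v x < |Lam G v x fun y => ξ (ω y)|) = 0 := by
      unfold pr
      rw [filter_false_of_mem fun ω _ => hf ω]
      simp
    rw [this]
    positivity
  · have hM' : (M : ℝ) ≠ 0 := by exact_mod_cast hM.ne'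
    have h := tail2 (J := V) hM (fun x : V => (0 : ℝ))
      ((nb G x).filter (fun y => ix y < ix x)) (fun x => {x}) (fun _ => ∅)
      (fun y ω => ξ (ω y))
      (fun y _ => (if x ∈ nb G v then (1 : ℝ) else 0) + (if y ∈ nb G v then 1 else 0))
      (fun y => (if x ∈ nb G v then (1 : ℝ) else 0) + (if y ∈ nb G v then 1 else 0))
      (fun x _ a b hab => by simp only [hab x (mem_singleton_self x)]) (fun _ _ _ _ _ => rfl)
      (fun x _ y _ hxy => by simpa using hxy)
      (fun x _ y _ _ => by simp) (fun y _ => by rw [ex_coord y ξ, h0, zero_div])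
      (fun x _ ω => h1 _) (fun y _ _ => by
        rw [abs_of_nonneg]
        split_ifs <;> norm_num)
      (S := 2 * wgt G d v x) (by positivity) hS (clp_nonneg G v x hd)
    have e : (fun ω : V → Fin M => clp G d v x < |Lam G v x fun y => ξ (ω y)|) =
        fun ω => clp G d v x < |∑ y ∈ (nb G x).filter (fun y => ix y < ix x), ξ (ω y) *
          ((if x ∈ nb G v then (1 : ℝ) else 0) + (if y ∈ nb G v then 1 else 0))| := by
      funext ω
      unfold Lam
      congr 2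
      exact sum_congr rfl fun y _ => mul_comm _ _
    rw [e]
    refine h.trans (mul_le_mul_of_nonneg_left (Real.exp_le_exp.2 (neg_le_neg ?_)) (by norm_num))
    rw [le_div_iff₀ (by positivity)]
    have h3 := clp_low G d v x
    nlinarith [sq_nonneg (Real.log d)]

/-- the quadratic form is small -/
theorem quad_tail {M : ℕ} (hM : 0 < M) {G : SimpleGraph V} {d : ℕ} (hG : Reg G d) (v : V)
    (hd : 1 ≤ d) (hd1 : 1 ≤ Real.log d) (ξ : Fin M → ℝ) (h1 : ∀ i, |ξ i| ≤ 1)
    (h0 : ∑ i, ξ i = 0) :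
    pr (fun ω : V → Fin M => d * Real.log d ^ 3 <
      |∑ x ∈ nb G v, ξ (ω x) * ∑ y ∈ nb G x, ξ (ω y)|) ≤
      2 * Real.exp (-(Real.log d ^ 4 / 8)) +
        ((d : ℝ) + 1) ^ 2 * (2 * Real.exp (-(Real.log d ^ 2 / 8))) := by
  have hdp : (0 : ℝ) < d := by exact_mod_cast hd
  have hl0 : 0 ≤ Real.log d := by linarith
  have hlp : 0 < Real.log d := by linarith
  -- the clamped form
  have hA := tail2 (J := V) hM (fun x : V => (ix x : ℝ)) univ (fun x => {x})
    (fun x => (nb G x).filter (fun y => ix y < ix x)) (fun x ω => ξ (ω x))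
    (fun x ω => gcl G d v x fun y => ξ (ω y)) (fun x => clp G d v x)
    (fun x _ a b hab => by simp only [hab x (mem_singleton_self x)])
    (fun x _ a b hab => by
      have : Lam G v x (fun y => ξ (a y)) = Lam G v x fun y => ξ (b y) := by
        unfold Lam
        exact sum_congr rfl fun y hy => by
          show _ * ξ (a y) = _ * ξ (b y)
          rw [hab y hy]
      show gcl G d v x (fun y => ξ (a y)) = gcl G d v x (fun y => ξ (b y))
      unfold gcl
      rw [this])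
    (fun x _ y _ hxy => by simpa using hxy)
    (fun x _ y _ hxy => by
      rw [disjoint_singleton_left, mem_filter]
      rintro ⟨_, h⟩
      have : (ix y : ℝ) ≤ ix x := hxy
      have h2 : ix y ≤ ix x := by exact_mod_cast this
      omega)
    (fun x _ => by rw [ex_coord x ξ, h0, zero_div]) (fun x _ ω => h1 _)
    (fun x _ ω => gcl_abs G v x hl0 _)
    (S := 4 * ((d : ℝ) * d) * Real.log d ^ 2) (by positivity) (by
      calc ∑ x, clp G d v x ^ 2 ≤ ∑ x, 2 * wgt G d v x * Real.log d ^ 2 :=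
            sum_le_sum fun x _ => clp_up G d v x
        _ = 2 * Real.log d ^ 2 * ∑ x, wgt G d v x := by
            rw [mul_sum]
            exact sum_congr rfl fun x _ => by ring
        _ = 4 * ((d : ℝ) * d) * Real.log d ^ 2 := by
            rw [sum_wgt hG]
            ring
        _ ≤ _ := le_rfl)
    (t := d * Real.log d ^ 3) (by positivity)
  have hE : (d * Real.log d ^ 3 : ℝ) ^ 2 / (2 * (4 * ((d : ℝ) * d) * Real.log d ^ 2)) =
      Real.log d ^ 4 / 8 := by
    field_simp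
    ring
  rw [hE] at hA
  -- union bound
  have hU : pr (fun ω : V → Fin M => d * Real.log d ^ 3 <
      |∑ x ∈ nb G v, ξ (ω x) * ∑ y ∈ nb G x, ξ (ω y)|) ≤
      pr (fun ω : V → Fin M => (d * Real.log d ^ 3 <
        |∑ x, ξ (ω x) * gcl G d v x fun y => ξ (ω y)|) ∨
        ∃ x ∈ ball G v 2, clp G d v x < |Lam G v x fun y => ξ (ω y)|) := by
    refine pr_mono fun ω hω => ?_
    by_contra hc
    rw [not_or] at hc
    push Not at hc
    obtain ⟨hc1, hc2⟩ := hc
    refine absurd hω (not_lt.2 ?_)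
    rw [quad G v ix ix_inj]
    refine le_trans (le_of_eq ?_) hc1
    congr 1
    refine sum_congr rfl fun x _ => ?_
    congr 1
    by_cases hx : x ∈ ball G v 2
    · exact (gcl_eq G v x _ (hc2 x hx)).symm
    · have hL : Lam G v x (fun y => ξ (ω y)) = 0 := by
        unfold Lam
        refine sum_eq_zero fun y hy => ?_
        have h3 : x ∉ nb G v := fun h => hx (by
          rw [ball, mem_union]
          refine Or.inl ?_
          rw [ball, mem_union, mem_biUnion]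
          exact Or.inr ⟨v, by simp [ball], h⟩)
        have h4 : y ∉ nb G v := fun h => hx (by
          rw [ball, mem_union, mem_biUnion]
          refine Or.inr ⟨y, ?_, ?_⟩
          · rw [ball, mem_union, mem_biUnion]
            exact Or.inr ⟨v, by simp [ball], h⟩
          · exact mem_nb.2 (mem_nb.1 (mem_filter.1 hy).1).symm)
        rw [if_neg h3, if_neg h4]
        ring
      have hg : gcl G d v x (fun y => ξ (ω y)) = Lam G v x fun y => ξ (ω y) := by
        refine gcl_eq G v x _ ?_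
        rw [hL, abs_zero]
        exact clp_nonneg G v x hl0
      rw [hg]
      rfl
  refine hU.trans ((pr_or _ _).trans (add_le_add hA ?_))
  refine (pr_ex _ _).trans ?_
  refine (sum_le_sum fun x _ => lam_tail hM hG v x hl0 ξ h1 h0).trans ?_
  rw [sum_const, nsmul_eq_mul]
  refine mul_le_mul_of_nonneg_right ?_ (by positivity)
  have := card_ball (fun v => (hG v).le) v 2
  exact_mod_cast this

/-! ## the vertex events -/

theorem sum_fin_eq (n k : ℕ) (hk : k < n) : ∑ y : Fin n, (if (y : ℕ) = k then (1 : ℝ) else 0) = 1 := by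
  have : ∀ y : Fin n, ((y : ℕ) = k) = (y = ⟨k, hk⟩) := fun y =>
    propext ⟨fun h => Fin.ext h, fun h => by rw [h]⟩
  simp only [this, sum_ite_eq', mem_univ, if_true]

/-- `K` -/
noncomputable def cK (n1 n2 : ℕ) (ω : V → Fin (n2 * n1)) : Finset V :=
  univ.filter fun v => (ω v : ℕ) % n1 = 0

/-- `M s` -/
noncomputable def cM (n1 n2 : ℕ) (ω : V → Fin (n2 * n1)) (s : Bool) : Finset V :=
  univ.filter fun v => (ω v : ℕ) / n1 = (if s then 0 else 1)

/-- the properties at a vertex -/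
structure Okv (G : SimpleGraph V) (d : ℕ) (a : ℝ) (n1 n2 : ℕ) (v : V) (ω : V → Fin (n2 * n1)) :
    Prop where
  k : |LK G d (1 / n1) (cK n1 n2 ω) v| ≤ √d * Real.log d
  q : |∑ x ∈ nb G v, io (cK n1 n2 ω) (1 / n1) x * LK G d (1 / n1) (cK n1 n2 ω) x| ≤
    d * Real.log d ^ 3
  m1 : ∀ s, |((nb G v ∩ cM n1 n2 ω s ∩ cK n1 n2 ω).card : ℝ) - 1 / n2 * (1 / n1) * d| ≤
    √d * Real.log d
  m2 : ∀ s, |(((nb G v ∩ cM n1 n2 ω s) \ cK n1 n2 ω).card : ℝ) - 1 / n2 * (1 - 1 / n1) * d| ≤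
    √d * Real.log d
  p1 : ∀ w ∈ ball G v 2, (d : ℝ) ^ (3 * a) ≤ cdg G v w →
    cdg G v w / 2 ≤ (((nb G v ∩ nb G w) \ cK n1 n2 ω).card : ℝ)
  p2 : (∑ y ∈ nb G v, ((nb G y ∩ low G d a v).card : ℝ)) / 2 - (d : ℝ) ^ (8 / 5 : ℝ) ≤
    ∑ y ∈ nb G v \ cK n1 n2 ω, ((nb G y ∩ low G d a v).card : ℝ)

/-- the centred coin -/
noncomputable def xi (n1 n2 : ℕ) (i : Fin (n2 * n1)) : ℝ :=
  (if (i : ℕ) % n1 = 0 then 1 else 0) - 1 / n1

theorem io_eq (n1 n2 : ℕ) (ω : V → Fin (n2 * n1)) (x : V) :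
    io (cK n1 n2 ω) (1 / n1) x = xi n1 n2 (ω x) := by
  unfold io xi cK
  simp only [mem_filter, mem_univ, true_and]

theorem LK_eq {G : SimpleGraph V} {d : ℕ} (hG : Reg G d) (n1 n2 : ℕ) (ω : V → Fin (n2 * n1))
    (x : V) : LK G d (1 / n1) (cK n1 n2 ω) x = ∑ y ∈ nb G x, xi n1 n2 (ω y) := by
  unfold LK xi
  rw [sum_sub_distrib, sum_const, nsmul_eq_mul, hG x, ← sum_filter, sum_const, nsmul_eq_mul,
    mul_one]
  have : nb G x ∩ cK n1 n2 ω = (nb G x).filter fun y => (ω y : ℕ) % n1 = 0 := by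
    ext y
    simp [cK]
  rw [this]
  ring

theorem mean_K (n1 n2 : ℕ) (h1 : 0 < n1) :
    (∑ i : Fin (n2 * n1), if (i : ℕ) % n1 = 0 then (1 : ℝ) else 0) =
      1 / n1 * ((n2 * n1 : ℕ) : ℝ) := by
  have := sum_coin n1 n2 h1 fun a _ => if a = 0 then (1 : ℝ) else 0
  rw [this, sum_congr rfl fun x _ => sum_fin_eq n1 0 h1]
  have : (n1 : ℝ) ≠ 0 := by exact_mod_cast h1.ne'
  simp only [sum_const, card_univ, Fintype.card_fin, nsmul_eq_mul, mul_one]
  push_cast
  field_simp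

theorem mean_1 (n1 n2 j : ℕ) (h1 : 0 < n1) (hj : j < n2) :
    (∑ i : Fin (n2 * n1), if ((i : ℕ) / n1 = j ∧ (i : ℕ) % n1 = 0) then (1 : ℝ) else 0) =
      1 / n2 * (1 / n1) * ((n2 * n1 : ℕ) : ℝ) := by
  have := sum_coin n1 n2 h1 fun a b => if (b = j ∧ a = 0) then (1 : ℝ) else 0
  rw [this]
  have e : ∀ x : Fin n2, ∑ y : Fin n1, (if ((x : ℕ) = j ∧ (y : ℕ) = 0) then (1 : ℝ) else 0) =
      if (x : ℕ) = j then 1 else 0 := by
    intro x
    by_cases hx : (x : ℕ) = j
    · simp only [hx, true_and, if_true]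
      exact sum_fin_eq n1 0 h1
    · simp [hx]
  rw [sum_congr rfl fun x _ => e x, sum_fin_eq n2 j hj]
  have h3 : (n1 : ℝ) ≠ 0 := by exact_mod_cast h1.ne'
  have h4 : (n2 : ℝ) ≠ 0 := by
    have : 0 < n2 := by omega
    exact_mod_cast this.ne'
  push_cast
  field_simp

theorem mean_2 (n1 n2 j : ℕ) (h1 : 0 < n1) (hj : j < n2) :
    (∑ i : Fin (n2 * n1), if ((i : ℕ) / n1 = j ∧ ¬ (i : ℕ) % n1 = 0) then (1 : ℝ) else 0) =
      1 / n2 * (1 - 1 / n1) * ((n2 * n1 : ℕ) : ℝ) := by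
  have := sum_coin n1 n2 h1 fun a b => if (b = j ∧ ¬ a = 0) then (1 : ℝ) else 0
  rw [this]
  have e : ∀ x : Fin n2, ∑ y : Fin n1, (if ((x : ℕ) = j ∧ ¬ (y : ℕ) = 0) then (1 : ℝ) else 0) =
      (if (x : ℕ) = j then 1 else 0) * (n1 - 1) := by
    intro x
    by_cases hx : (x : ℕ) = j
    · simp only [hx, true_and, if_true, one_mul]
      have e2 : ∀ y : Fin n1, (if ¬ (y : ℕ) = 0 then (1 : ℝ) else 0) =
          1 - if (y : ℕ) = 0 then 1 else 0 := by
        intro y
        split_ifs <;> norm_num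
      rw [sum_congr rfl fun y _ => e2 y, sum_sub_distrib, sum_fin_eq n1 0 h1]
      simp
    · simp [hx]
  rw [sum_congr rfl fun x _ => e x, ← sum_mul, sum_fin_eq n2 j hj]
  have h3 : (n1 : ℝ) ≠ 0 := by exact_mod_cast h1.ne'
  have h4 : (n2 : ℝ) ≠ 0 := by
    have : 0 < n2 := by omega
    exact_mod_cast this.ne'
  push_cast
  field_simp

theorem okv_dep (G : SimpleGraph V) (d : ℕ) (al : ℝ) (n1 n2 : ℕ) (v : V) :
    DepOnI (ball G v 2) (Okv G d al n1 n2 v) := by
  intro a b hab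
  have hK : ∀ A : Finset V, A ⊆ ball G v 2 → A ∩ cK n1 n2 a = A ∩ cK n1 n2 b := by
    intro A hA
    ext y
    simp only [mem_inter, cK, mem_filter, mem_univ, true_and]
    exact and_congr_right fun hy => by rw [hab y (hA hy)]
  have hK2 : ∀ A : Finset V, A ⊆ ball G v 2 → A \ cK n1 n2 a = A \ cK n1 n2 b := by
    intro A hA
    ext y
    simp only [mem_sdiff, cK, mem_filter, mem_univ, true_and]
    exact and_congr_right fun hy => by rw [hab y (hA hy)]
  have hM : ∀ s (A : Finset V), A ⊆ ball G v 2 → A ∩ cM n1 n2 a s = A ∩ cM n1 n2 b s := by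
    intro s A hA
    ext y
    simp only [mem_inter, cM, mem_filter, mem_univ, true_and]
    exact and_congr_right fun hy => by rw [hab y (hA hy)]
  have hv : nb G v ⊆ ball G v 2 := by
    intro x hx
    rw [ball, mem_union]
    refine Or.inl ?_
    rw [ball, mem_union, mem_biUnion]
    exact Or.inr ⟨v, by simp [ball], hx⟩
  have hv2 : ∀ x ∈ nb G v, nb G x ⊆ ball G v 2 := by
    intro x hx y hy
    rw [ball, mem_union, mem_biUnion]
    refine Or.inr ⟨x, ?_, hy⟩
    rw [ball, mem_union, mem_biUnion]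
    exact Or.inr ⟨v, by simp [ball], hx⟩
  have e1 : LK G d (1 / n1) (cK n1 n2 a) v = LK G d (1 / n1) (cK n1 n2 b) v := by
    unfold LK
    rw [hK _ hv]
  have e2 : ∑ x ∈ nb G v, io (cK n1 n2 a) (1 / n1) x * LK G d (1 / n1) (cK n1 n2 a) x =
      ∑ x ∈ nb G v, io (cK n1 n2 b) (1 / n1) x * LK G d (1 / n1) (cK n1 n2 b) x := by
    refine sum_congr rfl fun x hx => ?_
    rw [io_eq, io_eq, hab x (hv hx)]
    unfold LK
    rw [hK _ (hv2 x hx)]
  have e3 : ∀ s, nb G v ∩ cM n1 n2 a s ∩ cK n1 n2 a = nb G v ∩ cM n1 n2 b s ∩ cK n1 n2 b := by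
    intro s
    rw [hM s _ hv, hK _ (inter_subset_left.trans hv)]
  have e4 : ∀ s, (nb G v ∩ cM n1 n2 a s) \ cK n1 n2 a = (nb G v ∩ cM n1 n2 b s) \ cK n1 n2 b := by
    intro s
    rw [hM s _ hv, hK2 _ (inter_subset_left.trans hv)]
  have e5 : ∀ w, (nb G v ∩ nb G w) \ cK n1 n2 a = (nb G v ∩ nb G w) \ cK n1 n2 b := fun w =>
    hK2 _ (inter_subset_left.trans hv)
  have e6 : nb G v \ cK n1 n2 a = nb G v \ cK n1 n2 b := hK2 _ hv
  refine propext ⟨fun h => ⟨?_, ?_, fun s => ?_, fun s => ?_, fun w hw => ?_, ?_⟩,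
    fun h => ⟨?_, ?_, fun s => ?_, fun s => ?_, fun w hw => ?_, ?_⟩⟩
  · rw [← e1]; exact h.k
  · rw [← e2]; exact h.q
  · rw [← e3]; exact h.m1 s
  · rw [← e4]; exact h.m2 s
  · rw [← e5]; exact h.p1 w hw
  · rw [← e6]; exact h.p2
  · rw [e1]; exact h.k
  · rw [e2]; exact h.q
  · rw [e3]; exact h.m1 s
  · rw [e4]; exact h.m2 s
  · rw [e5]; exact h.p1 w hw
  · rw [e6]; exact h.p2

theorem exp_small {d : ℕ} {x : ℝ} (hd : 0 < d) (hx : 10 * Real.log d ≤ x) :
    Real.exp (-x) ≤ 1 / (d : ℝ) ^ 10 := by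
  have hdp : (0 : ℝ) < d := by exact_mod_cast hd
  have h1 : Real.exp (10 * Real.log d) = (d : ℝ) ^ 10 := by
    have := Real.exp_nat_mul (Real.log d) 10
    rw [Real.exp_log hdp] at this
    exact_mod_cast this
  rw [Real.exp_neg, ← one_div]
  refine one_div_le_one_div_of_le (by positivity) ?_
  rw [← h1]
  exact Real.exp_le_exp.2 hx

/-- common neighbours outside `K` -/
theorem p1_tail {G : SimpleGraph V} {d : ℕ} (a : ℝ) (n1 n2 : ℕ) (h1 : 64 ≤ n1) (h2 : 0 < n2)
    (v w : V) (hd : 1 ≤ d) (hl : 100 * Real.log d ≤ (d : ℝ) ^ (3 * a)) :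
    pr (fun ω : V → Fin (n2 * n1) => (d : ℝ) ^ (3 * a) ≤ cdg G v w ∧
      (((nb G v ∩ nb G w) \ cK n1 n2 ω).card : ℝ) < cdg G v w / 2) ≤ 2 * (1 / (d : ℝ) ^ 10) := by
  have hM : 0 < n2 * n1 := Nat.mul_pos h2 (by omega)
  have hdp : (0 : ℝ) < d := by exact_mod_cast hd
  by_cases hc : (d : ℝ) ^ (3 * a) ≤ cdg G v w
  · have hpos : 0 < cdg G v w := (Real.rpow_pos_of_pos hdp _).trans_le hc
    have hn1 : (64 : ℝ) ≤ n1 := by exact_mod_cast h1
    have hb0 : (0 : ℝ) ≤ 1 / n1 := by positivity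
    have hb1 : (1 : ℝ) / n1 ≤ 1 / 64 := one_div_le_one_div_of_le (by norm_num) hn1
    have hcard : 0 < (nb G v ∩ nb G w).card := by
      unfold cdg at hpos
      exact_mod_cast hpos
    have E := hoeff hM (fun i : Fin (n2 * n1) => (i : ℕ) % n1 = 0) (1 / n1) hb0
      (hb1.trans (by norm_num)) (mean_K n1 n2 (by omega)) (nb G v ∩ nb G w) hcard
      (t := 31 / 64 * cdg G v w) (by positivity)
    refine (pr_mono fun ω hω => ?_).trans (E.trans ?_)
    · obtain ⟨_, hω⟩ := hω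
      have e : (nb G v ∩ nb G w) ∩ cK n1 n2 ω =
          (nb G v ∩ nb G w).filter fun y => (ω y : ℕ) % n1 = 0 := by
        ext y
        simp [cK, and_assoc]
      have e2 : (((nb G v ∩ nb G w) \ cK n1 n2 ω).card : ℝ) +
          (((nb G v ∩ nb G w) ∩ cK n1 n2 ω).card : ℝ) = ((nb G v ∩ nb G w).card : ℝ) := by
        exact_mod_cast card_sdiff_add_card_inter (nb G v ∩ nb G w) (cK n1 n2 ω)
      rw [← e]
      have h3 : cdg G v w = ((nb G v ∩ nb G w).card : ℝ) := rfl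
      rw [← h3] at e2 ⊢
      refine lt_of_lt_of_le ?_ (le_abs_self _)
      have h4 : 1 / (n1 : ℝ) * cdg G v w ≤ 1 / 64 * cdg G v w :=
        mul_le_mul_of_nonneg_right hb1 hpos.le
      linarith
    · refine mul_le_mul_of_nonneg_left (exp_small (by omega) ?_) (by norm_num)
      have h3 : cdg G v w = ((nb G v ∩ nb G w).card : ℝ) := rfl
      rw [← h3, le_div_iff₀ (by positivity)]
      nlinarith
  · have : pr (fun ω : V → Fin (n2 * n1) => (d : ℝ) ^ (3 * a) ≤ cdg G v w ∧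
      (((nb G v ∩ nb G w) \ cK n1 n2 ω).card : ℝ) < cdg G v w / 2) = 0 :=
      pr_zero fun ω h => hc h.1
    rw [this]
    positivity

/-- the total of the small codegrees outside `K` -/
theorem p2_tail {G : SimpleGraph V} {d : ℕ} (hG : Reg G d) (a : ℝ) (n1 n2 : ℕ) (h1 : 64 ≤ n1)
    (h2 : 0 < n2) (v : V) (hd : 1 ≤ d) (hl : 20 * Real.log d ≤ (d : ℝ) ^ (1 / 5 : ℝ)) :
    pr (fun ω : V → Fin (n2 * n1) => ∑ y ∈ nb G v \ cK n1 n2 ω, ((nb G y ∩ low G d a v).card : ℝ) <
      (∑ y ∈ nb G v, ((nb G y ∩ low G d a v).card : ℝ)) / 2 - (d : ℝ) ^ (8 / 5 : ℝ)) ≤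
      1 / (d : ℝ) ^ 10 := by
  have hM : 0 < n2 * n1 := Nat.mul_pos h2 (by omega)
  have hdp : (0 : ℝ) < d := by exact_mod_cast hd
  have hn1 : (64 : ℝ) ≤ n1 := by exact_mod_cast h1
  have hb0 : (0 : ℝ) ≤ 1 / n1 := by positivity
  have hb1 : (1 : ℝ) / n1 ≤ 1 / 64 := one_div_le_one_div_of_le (by norm_num) hn1
  have E := tail1 (J := V) hM (fun x : V => (0 : ℝ)) (nb G v) (fun x => {x}) (fun _ => ∅)
    (fun y ω => xi n1 n2 (ω y)) (fun y _ => ((nb G y ∩ low G d a v).card : ℝ))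
    (fun y => ((nb G y ∩ low G d a v).card : ℝ))
    (fun x _ a b hab => by simp only [hab x (mem_singleton_self x)]) (fun _ _ _ _ _ => rfl)
    (fun x _ y _ hxy => by simpa using hxy)
    (fun x _ y _ _ => by simp) (fun y _ => by
      rw [ex_coord y (xi n1 n2)]
      unfold xi
      rw [sum_sub_distrib, mean_K n1 n2 (by omega)]
      simp [mul_comm])
    (fun x _ ω => by
      unfold xi
      split_ifs <;> rw [abs_le] <;> constructor <;> linarith)
    (fun y _ _ => by rw [abs_of_nonneg (Nat.cast_nonneg _)])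
    (S := (d : ℝ) ^ 3) (by positivity) (by
      calc ∑ y ∈ nb G v, ((nb G y ∩ low G d a v).card : ℝ) ^ 2 ≤ ∑ y ∈ nb G v, (d : ℝ) ^ 2 := by
            refine sum_le_sum fun y _ => pow_le_pow_left₀ (Nat.cast_nonneg _) ?_ 2
            have := card_le_card (inter_subset_left (s₁ := nb G y) (s₂ := low G d a v))
            rw [hG y] at this
            exact_mod_cast this
        _ = (d : ℝ) ^ 3 := by
            rw [sum_const, nsmul_eq_mul, hG v]
            ring)
    (t := (d : ℝ) ^ (8 / 5 : ℝ)) (by positivity)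
  refine (pr_mono fun ω hω => ?_).trans (E.trans (exp_small (by omega) ?_))
  · have e0 : ∑ y ∈ nb G v \ cK n1 n2 ω, ((nb G y ∩ low G d a v).card : ℝ) =
        ∑ y ∈ nb G v, (1 - if (ω y : ℕ) % n1 = 0 then (1 : ℝ) else 0) *
          ((nb G y ∩ low G d a v).card : ℝ) := by
      have : nb G v \ cK n1 n2 ω = (nb G v).filter fun y => ¬ (ω y : ℕ) % n1 = 0 := by
        ext y
        simp [cK]
      rw [this, sum_filter]
      refine sum_congr rfl fun y _ => ?_
      split_ifs <;> simp_all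
    rw [e0] at hω
    have e1 : ∑ y ∈ nb G v, xi n1 n2 (ω y) * ((nb G y ∩ low G d a v).card : ℝ) =
        (1 - 1 / n1) * ∑ y ∈ nb G v, ((nb G y ∩ low G d a v).card : ℝ) -
        ∑ y ∈ nb G v, (1 - if (ω y : ℕ) % n1 = 0 then (1 : ℝ) else 0) *
          ((nb G y ∩ low G d a v).card : ℝ) := by
      rw [mul_sum, ← sum_sub_distrib]
      refine sum_congr rfl fun y _ => ?_
      unfold xi
      ring
    rw [e1]
    have h5 : 0 ≤ ∑ y ∈ nb G v, ((nb G y ∩ low G d a v).card : ℝ) :=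
      sum_nonneg fun _ _ => Nat.cast_nonneg _
    have h6 : (1 : ℝ) / 2 ≤ 1 - 1 / n1 := by linarith
    have h7 := mul_le_mul_of_nonneg_right h6 h5
    linarith
  · have h3 : ((d : ℝ) ^ (8 / 5 : ℝ)) ^ 2 = (d : ℝ) ^ 3 * (d : ℝ) ^ (1 / 5 : ℝ) := by
      rw [← Real.rpow_natCast, ← Real.rpow_natCast, ← Real.rpow_mul hdp.le, ← Real.rpow_add hdp]
      norm_num
    rw [h3, le_div_iff₀ (by positivity)]
    have h4 : 0 < (d : ℝ) ^ 3 := by positivity
    nlinarith

theorem okv_pr {G : SimpleGraph V} {d : ℕ} (hG : Reg G d) (a : ℝ) (n1 n2 : ℕ) (h1 : 64 ≤ n1)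
    (h2 : 4 ≤ n2) (v : V) (hd : 1 ≤ d) (hl : 80 ≤ Real.log d)
    (hl1 : 100 * Real.log d ≤ (d : ℝ) ^ (3 * a)) (hl2 : 20 * Real.log d ≤ (d : ℝ) ^ (1 / 5 : ℝ)) :
    pr (fun ω : V → Fin (n2 * n1) => ¬ Okv G d a n1 n2 v ω) ≤ 40 / (d : ℝ) ^ 8 := by
  have hM : 0 < n2 * n1 := Nat.mul_pos (by omega) (by omega)
  have hdp : (0 : ℝ) < d := by exact_mod_cast hd
  have hd1 : (1 : ℝ) ≤ d := by exact_mod_cast hd
  have hn1 : (64 : ℝ) ≤ n1 := by exact_mod_cast h1
  have hn2 : (4 : ℝ) ≤ n2 := by exact_mod_cast h2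
  have hl0 : 0 ≤ Real.log d := by linarith
  set t := √d * Real.log d with ht
  have ht0 : 0 ≤ t := by positivity
  have htt : t ^ 2 / (2 * ((nb G v).card : ℝ)) = Real.log d ^ 2 / 2 := by
    rw [ht, mul_pow, Real.sq_sqrt hdp.le, hG v]
    field_simp
  have hcard : 0 < (nb G v).card := by rw [hG v]; omega
  have hb0 : (0 : ℝ) ≤ 1 / n1 := by positivity
  have hb1 : (1 : ℝ) / n1 ≤ 1 := by
    rw [div_le_one (by linarith)]
    linarith
  have hc0 : (0 : ℝ) ≤ 1 / n2 := by positivity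
  have hc1 : (1 : ℝ) / n2 ≤ 1 := by
    rw [div_le_one (by linarith)]
    linarith
  -- the events
  have E1 := hoeff hM (fun i : Fin (n2 * n1) => (i : ℕ) % n1 = 0) (1 / n1) hb0 hb1
    (mean_K n1 n2 (by omega)) (nb G v) hcard ht0
  have E3 := fun s : Bool => hoeff hM
    (fun i : Fin (n2 * n1) => (i : ℕ) / n1 = (if s then 0 else 1) ∧ (i : ℕ) % n1 = 0)
    (1 / n2 * (1 / n1)) (mul_nonneg hc0 hb0) (mul_le_one₀ hc1 hb0 hb1)
    (mean_1 n1 n2 (if s then 0 else 1) (by omega) (by split_ifs <;> omega)) (nb G v) hcard ht0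
  have E4 := fun s : Bool => hoeff hM
    (fun i : Fin (n2 * n1) => (i : ℕ) / n1 = (if s then 0 else 1) ∧ ¬ (i : ℕ) % n1 = 0)
    (1 / n2 * (1 - 1 / n1)) (mul_nonneg hc0 (by linarith)) (mul_le_one₀ hc1 (by linarith)
      (by linarith))
    (mean_2 n1 n2 (if s then 0 else 1) (by omega) (by split_ifs <;> omega)) (nb G v) hcard ht0
  have E2 := quad_tail hM hG v hd (by linarith) (xi n1 n2) (fun i => by
    unfold xi
    split_ifs <;> rw [abs_le] <;> constructor <;> linarith) (by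
    unfold xi
    rw [sum_sub_distrib, mean_K n1 n2 (by omega)]
    simp [mul_comm])
  rw [htt] at E1
  simp only [htt] at E3 E4
  -- small numbers
  have s1 : Real.exp (-(Real.log d ^ 2 / 2)) ≤ 1 / (d : ℝ) ^ 10 := exp_small hd (by nlinarith)
  have s2 : Real.exp (-(Real.log d ^ 2 / 8)) ≤ 1 / (d : ℝ) ^ 10 := exp_small hd (by nlinarith)
  have s3 : Real.exp (-(Real.log d ^ 4 / 8)) ≤ 1 / (d : ℝ) ^ 10 := by
    refine exp_small hd ?_
    have : Real.log d ^ 2 ≤ Real.log d ^ 4 := pow_le_pow_right₀ (by linarith) (by norm_num)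
    nlinarith
  -- union bound
  have F1 := (pr_ex (ball G v 2) (fun w (ω : V → Fin (n2 * n1)) =>
    (d : ℝ) ^ (3 * a) ≤ cdg G v w ∧
      (((nb G v ∩ nb G w) \ cK n1 n2 ω).card : ℝ) < cdg G v w / 2)).trans
    (sum_le_sum fun w _ => p1_tail a n1 n2 h1 (by omega) v w hd hl1)
  have F2 := p2_tail hG a n1 n2 h1 (by omega) v hd hl2
  rw [sum_const, nsmul_eq_mul] at F1
  have hU : pr (fun ω : V → Fin (n2 * n1) => ¬ Okv G d a n1 n2 v ω) ≤
      pr (fun ω : V → Fin (n2 * n1) =>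
        (t < |(((nb G v).filter fun y => (ω y : ℕ) % n1 = 0).card : ℝ) -
          1 / n1 * (nb G v).card|) ∨
        ((d * Real.log d ^ 3 < |∑ x ∈ nb G v, xi n1 n2 (ω x) * ∑ y ∈ nb G x, xi n1 n2 (ω y)|) ∨
        ((∃ s ∈ (univ : Finset Bool), t < |(((nb G v).filter fun y =>
          (ω y : ℕ) / n1 = (if s then 0 else 1) ∧ (ω y : ℕ) % n1 = 0).card : ℝ) -
            1 / n2 * (1 / n1) * (nb G v).card|) ∨
        (∃ s ∈ (univ : Finset Bool), t < |(((nb G v).filter fun y =>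
          (ω y : ℕ) / n1 = (if s then 0 else 1) ∧ ¬ (ω y : ℕ) % n1 = 0).card : ℝ) -
            1 / n2 * (1 - 1 / n1) * (nb G v).card|) ∨
        ((∃ w ∈ ball G v 2, (d : ℝ) ^ (3 * a) ≤ cdg G v w ∧
          (((nb G v ∩ nb G w) \ cK n1 n2 ω).card : ℝ) < cdg G v w / 2) ∨
        (∑ y ∈ nb G v \ cK n1 n2 ω, ((nb G y ∩ low G d a v).card : ℝ) <
          (∑ y ∈ nb G v, ((nb G y ∩ low G d a v).card : ℝ)) / 2 - (d : ℝ) ^ (8 / 5 : ℝ)))))) := by
    refine pr_mono fun ω hω => ?_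
    by_contra hc
    push Not at hc
    obtain ⟨c1, c2, c3, c4, c5, c6⟩ := hc
    refine hω ⟨?_, ?_, fun s => ?_, fun s => ?_, c5, c6⟩
    · unfold LK
      have e : nb G v ∩ cK n1 n2 ω = (nb G v).filter fun y => (ω y : ℕ) % n1 = 0 := by
        ext y
        simp [cK]
      rw [e]
      rw [hG v] at c1
      exact c1
    · simp only [io_eq, LK_eq hG]
      exact c2
    · have e : nb G v ∩ cM n1 n2 ω s ∩ cK n1 n2 ω = (nb G v).filter fun y =>
          (ω y : ℕ) / n1 = (if s then 0 else 1) ∧ (ω y : ℕ) % n1 = 0 := by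
        ext y
        simp only [cM, cK, mem_inter, mem_filter, mem_univ, true_and, and_assoc]
      have := c3 s (mem_univ s)
      rw [hG v] at this
      rw [e]
      exact this
    · have e : (nb G v ∩ cM n1 n2 ω s) \ cK n1 n2 ω = (nb G v).filter fun y =>
          (ω y : ℕ) / n1 = (if s then 0 else 1) ∧ ¬ (ω y : ℕ) % n1 = 0 := by
        ext y
        simp only [cM, cK, mem_inter, mem_sdiff, mem_filter, mem_univ, true_and, and_assoc]
      have := c4 s (mem_univ s)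
      rw [hG v] at this
      rw [e]
      exact this
  have f3 := (pr_ex (univ : Finset Bool) (fun s (ω : V → Fin (n2 * n1)) =>
    t < |(((nb G v).filter fun y =>
          (ω y : ℕ) / n1 = (if s then 0 else 1) ∧ (ω y : ℕ) % n1 = 0).card : ℝ) -
            1 / n2 * (1 / n1) * (nb G v).card|)).trans (sum_le_sum fun s _ => E3 s)
  have f4 := (pr_ex (univ : Finset Bool) (fun s (ω : V → Fin (n2 * n1)) =>
    t < |(((nb G v).filter fun y =>
          (ω y : ℕ) / n1 = (if s then 0 else 1) ∧ ¬ (ω y : ℕ) % n1 = 0).card : ℝ) -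
            1 / n2 * (1 - 1 / n1) * (nb G v).card|)).trans (sum_le_sum fun s _ => E4 s)
  rw [sum_const, card_univ, Fintype.card_bool, nsmul_eq_mul] at f3 f4
  have hT := hU.trans ((pr_or _ _).trans (add_le_add E1 ((pr_or _ _).trans (add_le_add E2
    ((pr_or _ _).trans (add_le_add f3 ((pr_or _ _).trans (add_le_add f4
    ((pr_or _ _).trans (add_le_add F1 F2))))))))))
  refine hT.trans ?_
  have hcb : ((ball G v 2).card : ℝ) ≤ ((d : ℝ) + 1) ^ 2 := by
    exact_mod_cast card_ball (fun v => (hG v).le) v 2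
  have hq1 : ((ball G v 2).card : ℝ) * (2 * (1 / (d : ℝ) ^ 10)) ≤
      ((d : ℝ) + 1) ^ 2 * (2 * (1 / (d : ℝ) ^ 10)) :=
    mul_le_mul_of_nonneg_right hcb (by positivity)
  push_cast
  have hq : ((d : ℝ) + 1) ^ 2 * (2 * Real.exp (-(Real.log d ^ 2 / 8))) ≤
      ((d : ℝ) + 1) ^ 2 * (2 * (1 / (d : ℝ) ^ 10)) := by
    refine mul_le_mul_of_nonneg_left ?_ (by positivity)
    linarith
  have hq2 : ((d : ℝ) + 1) ^ 2 * (2 * (1 / (d : ℝ) ^ 10)) ≤ 8 / (d : ℝ) ^ 8 := by
    have e : ((d : ℝ) + 1) ^ 2 * (2 * (1 / (d : ℝ) ^ 10)) = 2 * ((d : ℝ) + 1) ^ 2 / (d : ℝ) ^ 10 := by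
      ring
    rw [e, div_le_div_iff₀ (by positivity) (by positivity)]
    have : (d : ℝ) ^ 10 = d ^ 8 * d ^ 2 := by ring
    rw [this]
    have h6 : 0 < (d : ℝ) ^ 8 := by positivity
    have h7 : 2 * ((d : ℝ) + 1) ^ 2 ≤ 8 * (d : ℝ) ^ 2 := by nlinarith
    have := mul_le_mul_of_nonneg_left h7 h6.le
    linarith
  have hq3 : 13 * (1 / (d : ℝ) ^ 10) ≤ 13 / (d : ℝ) ^ 8 := by
    rw [mul_one_div, div_le_div_iff₀ (by positivity) (by positivity)]
    have : (d : ℝ) ^ 10 = d ^ 8 * d ^ 2 := by ring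
    rw [this]
    have h6 : 0 < (d : ℝ) ^ 8 := by positivity
    have h7 : (1 : ℝ) ≤ (d : ℝ) ^ 2 := by nlinarith
    have := mul_le_mul_of_nonneg_left h7 h6.le
    linarith
  have hsum : 8 / (d : ℝ) ^ 8 + 8 / (d : ℝ) ^ 8 + 13 / (d : ℝ) ^ 8 ≤ 40 / (d : ℝ) ^ 8 := by
    rw [← add_div, ← add_div]
    exact div_le_div_of_nonneg_right (by norm_num) (by positivity)
  linarith

end A1

/-- **Block A1.** -/
theorem stmt_A1 : Stmt_A1.{u} := by
  intro a n2 ha ha1 h2
  have hlog : ∀ s C : ℝ, 0 < s → 0 < C → ∃ N : ℕ, ∀ d : ℕ, N ≤ d →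
      C * Real.log d ≤ (d : ℝ) ^ s := by
    intro s C hs hC
    have h := (isLittleO_log_rpow_atTop hs).bound (show 0 < 1 / C by positivity)
    obtain ⟨X, hX⟩ := Filter.eventually_atTop.1 h
    refine ⟨max 1 ⌈X⌉₊, fun d hd => ?_⟩
    have hd1 : 1 ≤ d := le_trans (le_max_left _ _) hd
    have hdX : X ≤ (d : ℝ) := (Nat.le_ceil X).trans (by
      exact_mod_cast le_trans (le_max_right _ _) hd)
    have hdr : (1 : ℝ) ≤ d := by exact_mod_cast hd1
    have h3 := hX d hdX
    rw [Real.norm_of_nonneg (Real.log_nonneg hdr),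
      Real.norm_of_nonneg (Real.rpow_nonneg (by linarith) s)] at h3
    have h4 := mul_le_mul_of_nonneg_left h3 hC.le
    have h5 : C * (1 / C * (d : ℝ) ^ s) = (d : ℝ) ^ s := by
      field_simp
    linarith
  obtain ⟨N1, hN1⟩ := hlog (3 * a) 100 (by linarith) (by norm_num)
  obtain ⟨N2, hN2⟩ := hlog (1 / 5) 20 (by norm_num) (by norm_num)
  refine ⟨max ⌈Real.exp 80⌉₊ (max N1 N2), ?_⟩
  intro V _ G d hd hG
  have hl1 := hN1 d (le_trans (le_trans (le_max_left _ _) (le_max_right _ _)) hd)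
  have hl2 := hN2 d (le_trans (le_trans (le_max_right _ _) (le_max_right _ _)) hd)
  have hd' : Real.exp 80 ≤ d := (Nat.le_ceil _).trans (by
    exact_mod_cast le_trans (le_max_left _ _) hd)
  have hd80 : (81 : ℝ) ≤ d := by
    have := Real.add_one_le_exp (80 : ℝ)
    linarith
  have hdp : (0 : ℝ) < d := by linarith
  have hd1 : 1 ≤ d := by
    have : (1 : ℝ) ≤ d := by linarith
    exact_mod_cast this
  have hl : 80 ≤ Real.log d := by
    rw [Real.le_log_iff_exp_le hdp]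
    exact hd'
  have hM : 0 < n2 * 64 := Nat.mul_pos (by omega) (by omega)
  have hreg : ∀ v, (nb G v).card ≤ d := fun v => (hG v).le
  obtain ⟨ω, hω⟩ := Pool.Agent.Work.MP_db9399_all.stmt_LLLI.{u} V (n2 * 64) V (1 / (d : ℝ) ^ 3)
    (fun v => ball G v 2) (fun _ => 1 / (d : ℝ) ^ 6) (fun v ω => Okv G d a 64 n2 v ω) hM
    (by positivity) (by
      rw [div_le_div_iff₀ (by positivity) (by norm_num)]
      have : (81 : ℝ) ^ 3 ≤ (d : ℝ) ^ 3 := pow_le_pow_left₀ (by norm_num) hd80 3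
      norm_num at this
      linarith)
    (fun v => by
      refine packI_one (p := 40 / (d : ℝ) ^ 8) (s := ((d : ℝ) + 1) ^ 2) (by positivity)
        (okv_dep G d a 64 n2 v) ⟨v, ?_⟩ ?_ (okv_pr hG a 64 n2 le_rfl h2 v hd1 hl hl1 hl2) ?_
      · rw [ball, mem_union, ball, mem_union]
        exact Or.inl (Or.inl (by simp [ball]))
      · exact_mod_cast card_ball hreg v 2
      · have h3 : Real.exp (2 * (1 / (d : ℝ) ^ 3) * ((d : ℝ) + 1) ^ 2) ≤ 3 := by
          have h4 : 2 * (1 / (d : ℝ) ^ 3) * ((d : ℝ) + 1) ^ 2 ≤ 1 := by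
            have e : 2 * (1 / (d : ℝ) ^ 3) * ((d : ℝ) + 1) ^ 2 =
                2 * ((d : ℝ) + 1) ^ 2 / (d : ℝ) ^ 3 := by ring
            rw [e, div_le_one (by positivity)]
            nlinarith [sq_nonneg (d : ℝ)]
          have h5 := Real.exp_le_exp.2 h4
          have h6 := Real.exp_one_lt_d9
          linarith
        have h7 : 40 / (d : ℝ) ^ 8 * 3 ≤ 1 / (d : ℝ) ^ 6 := by
          have e : 40 / (d : ℝ) ^ 8 * 3 = 120 / (d : ℝ) ^ 8 := by ring
          rw [e, div_le_div_iff₀ (by positivity) (by positivity)]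
          have : (d : ℝ) ^ 8 = d ^ 6 * d ^ 2 := by ring
          rw [this]
          have h6 : 0 < (d : ℝ) ^ 6 := by positivity
          have h8 : (120 : ℝ) ≤ (d : ℝ) ^ 2 := by nlinarith
          have := mul_le_mul_of_nonneg_left h8 h6.le
          linarith
        exact (mul_le_mul_of_nonneg_left h3 (by positivity)).trans h7)
    (fun y => by
      rw [sum_const, nsmul_eq_mul]
      have h3 : (univ.filter fun v => y ∈ ball G v 2) ⊆ ball G y 2 := by
        intro v hv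
        exact ball_symm 2 y (mem_filter.1 hv).2
      have h4 := (card_le_card h3).trans (card_ball hreg y 2)
      have h5 : (((univ.filter fun v => y ∈ ball G v 2).card : ℕ) : ℝ) ≤ ((d : ℝ) + 1) ^ 2 := by
        exact_mod_cast h4
      refine (mul_le_mul_of_nonneg_right h5 (by positivity)).trans ?_
      rw [mul_one_div, div_le_div_iff₀ (by positivity) (by positivity)]
      have : (d : ℝ) ^ 6 = d ^ 3 * d ^ 3 := by ring
      rw [this]
      have h6 : 0 < (d : ℝ) ^ 3 := by positivity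
      have h7 : ((d : ℝ) + 1) ^ 2 ≤ (d : ℝ) ^ 3 := by nlinarith [sq_nonneg (d : ℝ)]
      have := mul_le_mul_of_nonneg_left h7 h6.le
      linarith)
  have h64 : (((64 : ℕ) : ℝ)) = 64 := by norm_num
  refine ⟨cK 64 n2 ω, cM 64 n2 ω, ?_, fun v => ?_, fun v => ?_, fun s v => ?_, fun s v => ?_,
    fun u w hw => ?_, fun u => (hω u).p2⟩
  · rw [disjoint_left]
    intro x hx hx'
    simp only [cM, mem_filter, mem_univ, true_and, if_true, Bool.false_eq_true, if_false] at hx hx'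
    omega
  · have := (hω v).k
    rwa [h64] at this
  · have := (hω v).q
    rwa [h64] at this
  · have := (hω v).m1 s
    rwa [h64] at this
  · have := (hω v).m2 s
    rwa [h64] at this
  · refine (hω u).p1 w ?_ hw
    have hpos : 0 < cdg G u w := (Real.rpow_pos_of_pos hdp _).trans_le hw
    unfold cdg at hpos
    have hc : 0 < (nb G u ∩ nb G w).card := by exact_mod_cast hpos
    obtain ⟨y, hy⟩ := card_pos.1 hc
    rw [mem_inter] at hy
    rw [ball, mem_union, mem_biUnion]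
    refine Or.inr ⟨y, ?_, mem_nb.2 (mem_nb.1 hy.2).symm⟩
    rw [ball, mem_union, mem_biUnion]
    exact Or.inr ⟨u, by simp [ball], hy.1⟩

end Pool.Agent.Work.MP_db9399_cg.helper68
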