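import Pool.Agent.Work.MP_db9399_cg_helper68.A1

/-!
# MP_db9399, SWG: the labels for several graphs at once (helper68)

The graphs `G j` live on types `Vj j` which are embedded in a common type `W` of labels.
-/

set_option autoImplicit false

namespace Pool.Agent.Work.MP_db9399_cg.helper68

open Finset Classical
open Pool.Agent.Work.MP_db9399_all (nb pr DepOnI PackI Stmt_LLLI)
open Pool.Agent.Work.MP_db9399_cg
open Pool.Agent.Work.MP_db9399_en

universe u

section pull

variable {W V : Type u} [Fintype W] [Fintype V] {M : ℕ}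

/-- the probability of an event which depends on the restriction -/
theorem pr_pull (hM : 0 < M) (π : V → W) (hπ : Function.Injective π) (E : (V → Fin M) → Prop) :
    pr (fun ω : W → Fin M => E fun x => ω (π x)) = pr E := by
  have : Nonempty (Fin M) := ⟨⟨0, hM⟩⟩
  -- split `W → Fin M`
  set e1 : (W → Fin M) ≃ ({w // w ∈ Set.range π} → Fin M) × ({w // ¬ w ∈ Set.range π} → Fin M) :=
    Equiv.piEquivPiSubtypeProd (fun w => w ∈ Set.range π) (fun _ => Fin M) with he1
  set e2 : V ≃ {w // w ∈ Set.range π} := Equiv.ofInjective π hπ with he2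
  set e3 : (V → Fin M) ≃ ({w // w ∈ Set.range π} → Fin M) := Equiv.arrowCongr e2 (Equiv.refl _)
    with he3
  set e : (W → Fin M) ≃ (V → Fin M) × ({w // ¬ w ∈ Set.range π} → Fin M) :=
    e1.trans (Equiv.prodCongr e3.symm (Equiv.refl _)) with he
  have hfst : ∀ ω, (e ω).1 = fun x => ω (π x) := by
    intro ω
    funext x
    rfl
  have hc1 : (univ.filter fun ω : W → Fin M => E fun x => ω (π x)).card =
      (univ.filter E).card * Fintype.card ({w // ¬ w ∈ Set.range π} → Fin M) := by
    rw [← Finset.card_univ (α := {w // ¬ w ∈ Set.range π} → Fin M), ← card_product]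
    refine card_bij (fun ω _ => e ω) ?_ ?_ ?_
    · intro ω hω
      rw [mem_product]
      rw [mem_filter] at hω
      refine ⟨?_, mem_univ _⟩
      rw [mem_filter, hfst]
      exact ⟨mem_univ _, hω.2⟩
    · intro a _ b _ h
      exact e.injective h
    · rintro ⟨p, q⟩ hpq
      rw [mem_product] at hpq
      refine ⟨e.symm (p, q), ?_, by simp⟩
      rw [mem_filter, ← hfst, Equiv.apply_symm_apply]
      exact ⟨mem_univ _, (mem_filter.1 hpq.1).2⟩
  have hc2 : Fintype.card (W → Fin M) =
      Fintype.card (V → Fin M) * Fintype.card ({w // ¬ w ∈ Set.range π} → Fin M) := by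
    rw [← Fintype.card_prod]
    exact Fintype.card_congr e
  unfold pr
  rw [hc1, hc2]
  push_cast
  have h0 : (Fintype.card ({w // ¬ w ∈ Set.range π} → Fin M) : ℝ) ≠ 0 := by
    have : 0 < Fintype.card ({w // ¬ w ∈ Set.range π} → Fin M) := Fintype.card_pos
    exact_mod_cast this.ne'
  exact mul_div_mul_right _ _ h0

theorem dep_pull (π : V → W) {Q : Finset V} {E : (V → Fin M) → Prop} (h : DepOnI Q E) :
    DepOnI (Q.image π) (fun ω : W → Fin M => E fun x => ω (π x)) := fun a b hab =>
  h _ _ fun x hx => hab _ (mem_image_of_mem π hx)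

end pull

/-- **A1N**: labels for several graphs at once. -/
theorem A1N (a C : ℝ) (n2 : ℕ) (ha : 0 < a) (_ha1 : a ≤ 1 / 100) (h2 : 4 ≤ n2) (hC : 1 ≤ C) :
    ∃ d0 : ℕ, ∀ {W J : Type u} [Fintype W] [Fintype J] (Vj : J → Type u) [∀ j, Fintype (Vj j)]
      (π : ∀ j, Vj j → W) (G : ∀ j, SimpleGraph (Vj j)) (d : ℕ) (D : J → ℕ), d0 ≤ d →
      (∀ j, Function.Injective (π j)) → (∀ j, D j ≤ d ∧ (d : ℝ) ≤ C * D j) →
      (Fintype.card J : ℝ) ≤ C → (∀ j, Reg (G j) (D j)) →
      ∃ (K : Finset W) (M : Bool → Finset W), ∀ j, Lab (G j) (D j) a (1 / 64) (1 / n2)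
        (univ.filter fun x => π j x ∈ K) (fun s => univ.filter fun x => π j x ∈ M s) := by
  have hlog : ∀ s C : ℝ, 0 < s → 0 < C → ∃ N : ℕ, ∀ d : ℕ, N ≤ d →
      C * Real.log d ≤ (d : ℝ) ^ s := by
    intro s C hs hC
    have h := (isLittleO_log_rpow_atTop hs).bound (show 0 < 1 / C by positivity)
    obtain ⟨X, hX⟩ := Filter.eventually_atTop.1 h
    refine ⟨max 1 ⌈X⌉₊, fun d hd => ?_⟩
    have hd1 : 1 ≤ d := le_trans (le_max_left _ _) hd
    have hdX : X ≤ (d : ℝ) := (Nat.le_ceil X).trans (by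
      exact_mod_cast le_trans (le_max_right _ _) hd)
    have hdr : (1 : ℝ) ≤ d := by exact_mod_cast hd1
    have h3 := hX d hdX
    rw [Real.norm_of_nonneg (Real.log_nonneg hdr),
      Real.norm_of_nonneg (Real.rpow_nonneg (by linarith) s)] at h3
    have h4 := mul_le_mul_of_nonneg_left h3 hC.le
    have h5 : C * (1 / C * (d : ℝ) ^ s) = (d : ℝ) ^ s := by
      field_simp
    linarith
  obtain ⟨N1, hN1⟩ := hlog (3 * a) 100 (by linarith) (by norm_num)
  obtain ⟨N2, hN2⟩ := hlog (1 / 5) 20 (by norm_num) (by norm_num)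
  set N0 : ℕ := max ⌈Real.exp 80⌉₊ (max N1 N2) with hN0
  have hC0 : 0 < C := by linarith
  refine ⟨max ⌈C * (N0 + 1)⌉₊ ⌈480 * C ^ 7⌉₊, ?_⟩
  intro W J _ _ Vj _ π G d D hd hπ hD hJ hG
  -- every `D j` is large
  have hdN : C * (N0 + 1) ≤ d := (Nat.le_ceil _).trans (by
    exact_mod_cast le_trans (le_max_left _ _) hd)
  have hdC : 480 * C ^ 7 ≤ d := (Nat.le_ceil _).trans (by
    exact_mod_cast le_trans (le_max_right _ _) hd)
  have hDN : ∀ j, N0 ≤ D j := by
    intro j
    have h3 : C * ((N0 : ℝ) + 1) ≤ C * D j := hdN.trans (hD j).2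
    have h4 : (N0 : ℝ) + 1 ≤ D j := le_of_mul_le_mul_left h3 hC0
    have h5 : (N0 : ℝ) ≤ D j := by linarith
    exact_mod_cast h5
  have hl1 : ∀ j, 100 * Real.log (D j) ≤ (D j : ℝ) ^ (3 * a) := fun j =>
    hN1 _ (le_trans (le_trans (le_max_left _ _) (le_max_right _ _)) (hDN j))
  have hl2 : ∀ j, 20 * Real.log (D j) ≤ (D j : ℝ) ^ (1 / 5 : ℝ) := fun j =>
    hN2 _ (le_trans (le_trans (le_max_right _ _) (le_max_right _ _)) (hDN j))
  have hD80 : ∀ j, (81 : ℝ) ≤ D j := by
    intro j
    have h3 : Real.exp 80 ≤ D j := (Nat.le_ceil _).trans (by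
      exact_mod_cast le_trans (le_max_left _ _) (hDN j))
    have := Real.add_one_le_exp (80 : ℝ)
    linarith
  have hDp : ∀ j, (0 : ℝ) < D j := fun j => by have := hD80 j; linarith
  have hD1 : ∀ j, 1 ≤ D j := fun j => by
    have : (1 : ℝ) ≤ D j := by have := hD80 j; linarith
    exact_mod_cast this
  have hl : ∀ j, 80 ≤ Real.log (D j) := by
    intro j
    rw [Real.le_log_iff_exp_le (hDp j)]
    exact (Nat.le_ceil _).trans (by exact_mod_cast le_trans (le_max_left _ _) (hDN j))
  have hM : 0 < n2 * 64 := Nat.mul_pos (by omega) (by omega)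
  have hreg : ∀ j v, (nb (G j) v).card ≤ D j := fun j v => (hG j v).le
  have hd480 : (480 : ℝ) ≤ d := by
    have : (1 : ℝ) ≤ C ^ 7 := one_le_pow₀ hC
    linarith
  have hdp : (0 : ℝ) < d := by linarith
  obtain ⟨ω, hω⟩ := Pool.Agent.Work.MP_db9399_all.stmt_LLLI.{u} W (n2 * 64) (Σ j, Vj j)
    (1 / (d : ℝ) ^ 3) (fun r => (ball (G r.1) r.2 2).image (π r.1))
    (fun r => 120 / (D r.1 : ℝ) ^ 8)
    (fun r ω => Okv (G r.1) (D r.1) a 64 n2 r.2 fun x => ω (π r.1 x)) hM
    (by positivity) (by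
      rw [div_le_div_iff₀ (by positivity) (by norm_num)]
      have : (480 : ℝ) ^ 3 ≤ (d : ℝ) ^ 3 := pow_le_pow_left₀ (by norm_num) hd480 3
      norm_num at this
      linarith)
    (fun r => by
      obtain ⟨j, v⟩ := r
      refine packI_one (p := 40 / (D j : ℝ) ^ 8) (s := ((D j : ℝ) + 1) ^ 2) (by positivity)
        (dep_pull (π j) (okv_dep (G j) (D j) a 64 n2 v)) ⟨π j v, ?_⟩ ?_ ?_ ?_
      · refine mem_image_of_mem _ ?_
        rw [ball, mem_union, ball, mem_union]
        exact Or.inl (Or.inl (by simp [ball]))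
      · have h3 := (card_image_le (s := ball (G j) v 2) (f := π j)).trans (card_ball (hreg j) v 2)
        exact_mod_cast h3
      · have h3 := pr_pull hM (π j) (hπ j) (fun ω => ¬ Okv (G j) (D j) a 64 n2 v ω)
        rw [h3]
        exact okv_pr (hG j) a 64 n2 le_rfl h2 v (hD1 j) (hl j) (hl1 j) (hl2 j)
      · have hDd : (D j : ℝ) ≤ d := by exact_mod_cast (hD j).1
        have hp := hDp j
        have h80 := hD80 j
        have h3 : Real.exp (2 * (1 / (d : ℝ) ^ 3) * ((D j : ℝ) + 1) ^ 2) ≤ 3 := by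
          have h4 : 2 * (1 / (d : ℝ) ^ 3) * ((D j : ℝ) + 1) ^ 2 ≤ 1 := by
            have e : 2 * (1 / (d : ℝ) ^ 3) * ((D j : ℝ) + 1) ^ 2 =
                2 * ((D j : ℝ) + 1) ^ 2 / (d : ℝ) ^ 3 := by ring
            rw [e, div_le_one (by positivity)]
            have h5 : (D j : ℝ) ^ 3 ≤ (d : ℝ) ^ 3 := pow_le_pow_left₀ hp.le hDd 3
            nlinarith [sq_nonneg (D j : ℝ)]
          have h5 := Real.exp_le_exp.2 h4
          have h6 := Real.exp_one_lt_d9
          linarith
        have h7 : 40 / (D j : ℝ) ^ 8 * 3 = 120 / (D j : ℝ) ^ 8 := by ring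
        rw [← h7]
        exact mul_le_mul_of_nonneg_left h3 (by positivity))
    (fun y => by
      rw [sum_filter, ← univ_sigma_univ, sum_sigma]
      have h3 : ∀ j : J, ∑ v : Vj j, (if y ∈ (ball (G j) v 2).image (π j) then
          120 / (D j : ℝ) ^ 8 else 0) ≤ 480 * C ^ 6 / (d : ℝ) ^ 6 := by
        intro j
        have hp := hDp j
        have h80 := hD80 j
        rw [← sum_filter, sum_const, nsmul_eq_mul]
        have h4 : (((univ.filter fun v => y ∈ (ball (G j) v 2).image (π j)).card : ℕ) : ℝ) ≤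
            ((D j : ℝ) + 1) ^ 2 := by
          by_cases hy : ∃ x, π j x = y
          · obtain ⟨x, rfl⟩ := hy
            have h5 : (univ.filter fun v => π j x ∈ (ball (G j) v 2).image (π j)) ⊆
                ball (G j) x 2 := by
              intro v hv
              rw [mem_filter] at hv
              obtain ⟨z, hz, hzx⟩ := mem_image.1 hv.2
              rw [hπ j hzx] at hz
              exact ball_symm 2 x hz
            have h6 := (card_le_card h5).trans (card_ball (hreg j) x 2)
            exact_mod_cast h6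
          · have h5 : (univ.filter fun v => y ∈ (ball (G j) v 2).image (π j)) = ∅ := by
              rw [filter_eq_empty_iff]
              intro v _ hv
              obtain ⟨z, _, hzx⟩ := mem_image.1 hv
              exact hy ⟨z, hzx⟩
            rw [h5, card_empty, Nat.cast_zero]
            positivity
        refine (mul_le_mul_of_nonneg_right h4 (by positivity)).trans ?_
        have h5 : ((D j : ℝ) + 1) ^ 2 * (120 / (D j : ℝ) ^ 8) ≤ 480 / (D j : ℝ) ^ 6 := by
          have e : ((D j : ℝ) + 1) ^ 2 * (120 / (D j : ℝ) ^ 8) =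
              120 * ((D j : ℝ) + 1) ^ 2 / (D j : ℝ) ^ 8 := by ring
          rw [e, div_le_div_iff₀ (by positivity) (by positivity)]
          have : (D j : ℝ) ^ 8 = (D j : ℝ) ^ 6 * (D j : ℝ) ^ 2 := by ring
          rw [this]
          have h6 : 0 < (D j : ℝ) ^ 6 := by positivity
          have h7 : 120 * ((D j : ℝ) + 1) ^ 2 ≤ 480 * (D j : ℝ) ^ 2 := by nlinarith
          have := mul_le_mul_of_nonneg_left h7 h6.le
          linarith
        refine h5.trans ?_
        rw [div_le_div_iff₀ (by positivity) (by positivity)]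
        have h6 : (d : ℝ) ^ 6 ≤ (C * D j) ^ 6 := pow_le_pow_left₀ hdp.le (hD j).2 6
        rw [mul_pow] at h6
        linarith
      refine (sum_le_sum fun j _ => h3 j).trans ?_
      rw [sum_const, nsmul_eq_mul, card_univ]
      have h4 : (Fintype.card J : ℝ) * (480 * C ^ 6 / (d : ℝ) ^ 6) ≤
          C * (480 * C ^ 6 / (d : ℝ) ^ 6) := mul_le_mul_of_nonneg_right hJ (by positivity)
      refine h4.trans ?_
      have e : C * (480 * C ^ 6 / (d : ℝ) ^ 6) = 480 * C ^ 7 / (d : ℝ) ^ 6 := by ring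
      rw [e, div_le_div_iff₀ (by positivity) (by positivity)]
      have : (d : ℝ) ^ 6 = d ^ 3 * d ^ 3 := by ring
      rw [this]
      have h6 : 0 < (d : ℝ) ^ 3 := by positivity
      have h7 : 480 * C ^ 7 ≤ (d : ℝ) ^ 3 := by
        refine hdC.trans ?_
        nlinarith [sq_nonneg (d : ℝ)]
      have := mul_le_mul_of_nonneg_right h7 h6.le
      linarith)
  have h64 : (((64 : ℕ) : ℝ)) = 64 := by norm_num
  have hcK : ∀ j, cK 64 n2 (fun x => ω (π j x)) = univ.filter fun x => π j x ∈ cK 64 n2 ω := by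
    intro j
    ext x
    simp [cK]
  have hcM : ∀ j s, cM 64 n2 (fun x => ω (π j x)) s =
      univ.filter fun x => π j x ∈ cM 64 n2 ω s := by
    intro j s
    ext x
    simp [cM]
  refine ⟨cK 64 n2 ω, cM 64 n2 ω, fun j => ?_⟩
  have hj : ∀ v, Okv (G j) (D j) a 64 n2 v fun x => ω (π j x) := fun v => hω ⟨j, v⟩
  have hDpj := hDp j
  rw [← hcK j]
  have hMM : (fun s => univ.filter fun x => π j x ∈ cM 64 n2 ω s) =
      cM 64 n2 (fun x => ω (π j x)) := by
    funext s
    exact (hcM j s).symm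
  rw [hMM]
  refine ⟨?_, fun v => ?_, fun v => ?_, fun s v => ?_, fun s v => ?_,
    fun u w hw => ?_, fun u => (hj u).p2⟩
  · rw [disjoint_left]
    intro x hx hx'
    simp only [cM, mem_filter, mem_univ, true_and, if_true, Bool.false_eq_true, if_false] at hx hx'
    omega
  · have := (hj v).k
    rwa [h64] at this
  · have := (hj v).q
    rwa [h64] at this
  · have := (hj v).m1 s
    rwa [h64] at this
  · have := (hj v).m2 s
    rwa [h64] at this
  · refine (hj u).p1 w ?_ hw
    have hpos : 0 < cdg (G j) u w := (Real.rpow_pos_of_pos hDpj _).trans_le hw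
    unfold cdg at hpos
    have hc : 0 < (nb (G j) u ∩ nb (G j) w).card := by exact_mod_cast hpos
    obtain ⟨y, hy⟩ := card_pos.1 hc
    rw [mem_inter] at hy
    rw [ball, mem_union, mem_biUnion]
    refine Or.inr ⟨y, ?_, mem_nb.2 (mem_nb.1 hy.2).symm⟩
    rw [ball, mem_union, mem_biUnion]
    exact Or.inr ⟨u, by simp [ball], hy.1⟩

end Pool.Agent.Work.MP_db9399_cg.helper68
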