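import Pool.Agent.Work.MP_db9399_cg.Interface2
import Pool.Agent.Work.MP_db9399_all_helper6.LLLI
import Pool.Agent.Work.MP_db9399_cg_helper68.BALL

/-!
# MP_db9399, SPW, block A34: all coins by the local lemma (helper68)
-/

set_option autoImplicit false

namespace Pool.Agent.Work.MP_db9399_cg.helper68

open Finset Classical
open Pool.Agent.Work.MP_db9399_all (nb pr DepOnI PackI Stmt_LLLI)
open Pool.Agent.Work.MP_db9399_cg

universe u

/-- A34 from A3 and A4. -/
theorem stmt_A34 (hA3 : Stmt_A3.{u}) (hA4 : Stmt_A4.{u}) : Stmt_A34.{u} := by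
  intro a m ha ha1
  obtain ⟨d3, h3⟩ := hA3 a m ha ha1
  obtain ⟨d4, h4⟩ := hA4 a m ha ha1
  refine ⟨max (max d3 d4) 20, ?_⟩
  intro V _ G G1 d κ θ x1 h cc hd E
  have hd3 : d3 ≤ d := le_trans (le_trans (le_max_left _ _) (le_max_left _ _)) hd
  have hd4 : d4 ≤ d := le_trans (le_trans (le_max_right _ _) (le_max_left _ _)) hd
  have hd20 : 20 ≤ d := le_trans (le_max_right _ _) hd
  have hdr : (20 : ℝ) ≤ d := by exact_mod_cast hd20
  have hdp : (0 : ℝ) < d := by linarith
  have hreg : ∀ v, (nb G v).card ≤ d := fun v => (E.reg v).le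
  have P3 := h3 G G1 d (2 * d ^ 4) κ θ x1 h cc hd3 rfl E
  have P4 := h4 G G1 d (2 * d ^ 4) κ θ x1 h cc hd4 rfl E
  have hbl : ∀ v, bl G v ⊆ ball G v 1 := by
    intro v x hx
    rw [bl, mem_insert] at hx
    rw [ball, mem_union, mem_biUnion]
    rcases hx with rfl | hx
    · exact Or.inl (by simp [ball])
    · exact Or.inr ⟨v, by simp [ball], hx⟩
  have hL := Pool.Agent.Work.MP_db9399_all.stmt_LLLI.{u} (Sym2 V) (2 * d ^ 4)
    (V ⊕ V) (1 / (d : ℝ) ^ 5)
    (Sum.elim (fun v => univ.filter fun e : Sym2 V => ∃ y ∈ e, y ∈ bl G v)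
      (fun v => univ.filter fun e : Sym2 V => ∃ y ∈ e, y ∈ bl G v))
    (fun _ => 1 / (d : ℝ) ^ 8)
    (Sum.elim (fun v f => CoinV G1 d κ θ x1 h cc (cO G1 f) (cZ G1 θ f) v)
      (fun v f => CoinP G G1 d a κ (cZ G1 θ f) v))
    (by positivity) (by positivity) (by
      rw [div_le_div_iff₀ (by positivity) (by norm_num)]
      have : (20 : ℝ) ^ 5 ≤ (d : ℝ) ^ 5 := pow_le_pow_left₀ (by norm_num) hdr 5
      norm_num at this
      linarith) ?_ ?_
  · obtain ⟨f, hf⟩ := hL
    refine ⟨cO G1 f, cZ G1 θ f, ?_, fun v w hv => hv.1, ?_, fun v w hv => hv.1,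
      fun v => hf (Sum.inl v), fun v => hf (Sum.inr v)⟩
    · intro v w hvw
      have hne : ix v ≠ ix w := by
        intro heq
        have : Fintype.equivFin V v = Fintype.equivFin V w := Fin.ext heq
        exact hvw.ne ((Fintype.equivFin V).injective this)
      have hs : s(w, v) = s(v, w) := Sym2.eq_swap
      unfold cO
      rw [hs]
      have h1 : ix w < ix v ↔ ¬ ix v < ix w := by omega
      rw [h1]
      simp only [hvw, hvw.symm, true_and]
      tauto
    · intro v w hv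
      unfold cZ at hv ⊢
      rw [E.th w v, Sym2.eq_swap]
      exact ⟨hv.1.symm, hv.2⟩
  · rintro (v | v)
    · exact P3 v
    · exact P4 v
  · intro e
    rw [sum_filter, Fintype.sum_sum_type]
    simp only [Sum.elim_inl, Sum.elim_inr, mem_filter, mem_univ, true_and]
    have a0 : (((univ.filter fun v => ∃ y ∈ e, y ∈ bl G v).card : ℕ) : ℝ) ≤
        2 * ((d : ℝ) + 1) ^ 1 := by
      refine le_trans ?_ (card_touch hreg e 1)
      refine Nat.cast_le.2 (card_le_card fun v hv => ?_)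
      simp only [mem_filter, mem_univ, true_and] at hv ⊢
      obtain ⟨y, hy, hyv⟩ := hv
      exact ⟨y, hy, hbl v hyv⟩
    have a1 : ∑ v : V, (if ∃ y ∈ e, y ∈ bl G v then 1 / (d : ℝ) ^ 8 else 0) ≤
        2 * ((d : ℝ) + 1) ^ 1 * (1 / (d : ℝ) ^ 8) := by
      rw [← sum_filter, sum_const, nsmul_eq_mul]
      exact mul_le_mul_of_nonneg_right a0 (by positivity)
    have a5 : 2 * ((d : ℝ) + 1) ^ 1 * (1 / (d : ℝ) ^ 8) ≤ 4 / (d : ℝ) ^ 6 := by
      rw [mul_one_div, div_le_div_iff₀ (by positivity) (by positivity)]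
      have : (d : ℝ) ^ 8 = d ^ 6 * d ^ 2 := by ring
      rw [this]
      have h6 : 0 < (d : ℝ) ^ 6 := by positivity
      have h7 : 2 * ((d : ℝ) + 1) ^ 1 ≤ 4 * (d : ℝ) ^ 2 := by
        rw [pow_one]
        nlinarith
      have h8 := mul_le_mul_of_nonneg_right h7 h6.le
      linarith
    have a6 : 4 / (d : ℝ) ^ 6 + 4 / (d : ℝ) ^ 6 ≤ 1 / (d : ℝ) ^ 5 := by
      rw [← add_div, div_le_div_iff₀ (by positivity) (by positivity)]
      have : (d : ℝ) ^ 6 = d ^ 5 * d := by ring
      rw [this]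
      have h6 : 0 < (d : ℝ) ^ 5 := by positivity
      nlinarith
    linarith

end Pool.Agent.Work.MP_db9399_cg.helper68
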